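import Mathlib

set_option autoImplicit false

/-! The divisor bound `d(n) ≤ C n^δ`. -/

namespace Pool.Agent.Helper69_Weyl

open Finset

theorem exists_card_divisors_le (δ : ℝ) (hδ : 0 < δ) :
    ∃ C : ℝ, 1 ≤ C ∧ ∀ n : ℕ, n ≠ 0 → ((n.divisors.card : ℕ) : ℝ) ≤ C * (n : ℝ) ^ δ := by
  have hl2 : 0 < Real.log 2 := Real.log_pos (by norm_num)
  set C1 : ℝ := max 1 (1 / (δ * Real.log 2)) with hC1
  have hC1one : 1 ≤ C1 := le_max_left _ _
  obtain ⟨B, hB⟩ : ∃ B : ℕ, (2 : ℝ) ^ (1 / δ) ≤ B := exists_nat_ge _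
  have key : ∀ p : ℕ, p.Prime → ∀ v : ℕ,
      ((v : ℝ) + 1) ≤ (if p < B then C1 else 1) * ((p : ℝ) ^ v) ^ δ := by
    intro p hp v
    have hp2 : (2 : ℝ) ≤ p := by exact_mod_cast hp.two_le
    have hp0 : (0 : ℝ) < p := by linarith
    have e1 : ((p : ℝ) ^ v) ^ δ = ((p : ℝ) ^ δ) ^ v := by
      rw [← Real.rpow_natCast, ← Real.rpow_natCast, ← Real.rpow_mul hp0.le,
        ← Real.rpow_mul hp0.le, mul_comm]
    split_ifs with h
    · have h2 : ((2 : ℝ) ^ δ) ^ v ≤ ((p : ℝ) ^ δ) ^ v :=
        pow_le_pow_left₀ (by positivity) (Real.rpow_le_rpow (by norm_num) hp2 hδ.le) v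
      have h3 : 1 + δ * v * Real.log 2 ≤ ((2 : ℝ) ^ δ) ^ v := by
        have e2 : ((2 : ℝ) ^ δ) ^ v = Real.exp (δ * v * Real.log 2) := by
          rw [← Real.rpow_natCast, ← Real.rpow_mul (by norm_num),
            Real.rpow_def_of_pos (by norm_num)]
          ring_nf
        rw [e2]
        have := Real.add_one_le_exp (δ * v * Real.log 2)
        linarith
      have h4 : (v : ℝ) + 1 ≤ C1 * (1 + δ * v * Real.log 2) := by
        have h5 : 1 / (δ * Real.log 2) ≤ C1 := le_max_right _ _
        have h6 : 1 ≤ C1 * (δ * Real.log 2) := by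
          rw [div_le_iff₀ (by positivity)] at h5
          linarith
        have hv : (0 : ℝ) ≤ v := Nat.cast_nonneg v
        nlinarith
      calc (v : ℝ) + 1 ≤ C1 * (1 + δ * v * Real.log 2) := h4
        _ ≤ C1 * ((p : ℝ) ^ v) ^ δ := by
          rw [e1]
          exact mul_le_mul_of_nonneg_left (h3.trans h2) (by linarith)
    · have hpB : (B : ℝ) ≤ p := by
        push Not at h
        exact_mod_cast h
      have h7 : (2 : ℝ) ≤ (p : ℝ) ^ δ := by
        have h8 : ((2 : ℝ) ^ (1 / δ)) ^ δ ≤ (p : ℝ) ^ δ :=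
          Real.rpow_le_rpow (by positivity) (hB.trans hpB) hδ.le
        rw [← Real.rpow_mul (by norm_num), one_div, inv_mul_cancel₀ hδ.ne', Real.rpow_one] at h8
        exact h8
      have h9 : (2 : ℝ) ^ v ≤ ((p : ℝ) ^ δ) ^ v := pow_le_pow_left₀ (by norm_num) h7 v
      have h10 : (v : ℝ) + 1 ≤ 2 ^ v := by
        have : v + 1 ≤ 2 ^ v := Nat.lt_two_pow_self
        exact_mod_cast this
      rw [e1, one_mul]
      exact h10.trans h9
  refine ⟨C1 ^ B, one_le_pow₀ hC1one, ?_⟩
  intro n hn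
  rw [Nat.card_divisors hn]
  have e3 : (n : ℝ) ^ δ = ∏ p ∈ n.primeFactors, ((p : ℝ) ^ (n.factorization p)) ^ δ := by
    rw [Real.finset_prod_rpow _ _ (fun i _ => by positivity)]
    congr 1
    conv_lhs => rw [← Nat.prod_factorization_pow_eq_self hn]
    rw [Finsupp.prod]
    push_cast
    rfl
  rw [e3]
  push_cast
  calc ∏ x ∈ n.primeFactors, ((n.factorization x : ℝ) + 1)
      ≤ ∏ x ∈ n.primeFactors,
          ((if x < B then C1 else 1) * ((x : ℝ) ^ (n.factorization x)) ^ δ) := by
        apply Finset.prod_le_prod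
        · intro i _; positivity
        · intro i hi
          exact key i (Nat.prime_of_mem_primeFactors hi) _
    _ = (∏ x ∈ n.primeFactors, (if x < B then C1 else 1)) *
          ∏ x ∈ n.primeFactors, ((x : ℝ) ^ (n.factorization x)) ^ δ :=
        Finset.prod_mul_distrib
    _ ≤ C1 ^ B * ∏ x ∈ n.primeFactors, ((x : ℝ) ^ (n.factorization x)) ^ δ := by
        apply mul_le_mul_of_nonneg_right _ (by positivity)
        rw [Finset.prod_ite, Finset.prod_const, Finset.prod_const_one, mul_one]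
        apply pow_le_pow_right₀ hC1one
        calc (Finset.filter (fun x => x < B) n.primeFactors).card
            ≤ (Finset.range B).card := Finset.card_le_card (by
              intro x hx
              rw [Finset.mem_filter] at hx
              exact Finset.mem_range.2 hx.2)
          _ = B := Finset.card_range B

end Pool.Agent.Helper69_Weyl
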