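import Mathlib

set_option autoImplicit false

/-! Weyl sums on a grid: orthogonality, a Nikolskii type inequality, completion, partial
summation. -/

namespace Pool.Agent.Helper69_Weyl

open Finset

/-- `e(x) = exp (2 π i x)`. -/
noncomputable def ee (x : ℝ) : ℂ := Complex.exp (2 * (Real.pi : ℂ) * Complex.I * ((x : ℝ) : ℂ))

theorem ee_add (x y : ℝ) : ee (x + y) = ee x * ee y := by
  unfold ee
  rw [← Complex.exp_add]
  congr 1
  push_cast
  ring

theorem ee_zero : ee 0 = 1 := by simp [ee]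

theorem ee_int (n : ℤ) : ee (n : ℝ) = 1 := by
  unfold ee
  rw [Complex.exp_eq_one_iff]
  exact ⟨n, by push_cast; ring⟩

theorem ee_nat (n : ℕ) : ee (n : ℝ) = 1 := by
  have := ee_int n
  exact_mod_cast this

theorem norm_ee (x : ℝ) : ‖ee x‖ = 1 := by
  unfold ee
  have : 2 * (Real.pi : ℂ) * Complex.I * ((x : ℝ) : ℂ) = ((2 * Real.pi * x : ℝ) : ℂ) * Complex.I := by
    push_cast
    ring
  rw [this, Complex.norm_exp_ofReal_mul_I]

theorem ee_ne_zero (x : ℝ) : ee x ≠ 0 := Complex.exp_ne_zero _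

theorem ee_neg (x : ℝ) : ee (-x) = (ee x)⁻¹ := by
  have h := ee_add x (-x)
  rw [add_neg_cancel, ee_zero] at h
  exact eq_inv_of_mul_eq_one_right h.symm

theorem conj_ee (x : ℝ) : (starRingEnd ℂ) (ee x) = ee (-x) := by
  unfold ee
  have h1 : 2 * (Real.pi : ℂ) * Complex.I * ((x : ℝ) : ℂ) =
      ((2 * Real.pi * x : ℝ) : ℂ) * Complex.I := by
    push_cast
    ring
  have h2 : 2 * (Real.pi : ℂ) * Complex.I * ((-x : ℝ) : ℂ) =
      -(((2 * Real.pi * x : ℝ) : ℂ) * Complex.I) := by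
    push_cast
    ring
  rw [← Complex.exp_conj, h1, h2, map_mul, Complex.conj_ofReal, Complex.conj_I]
  congr 1
  ring

theorem ee_natCast_mul (n : ℕ) (x : ℝ) : ee (n * x) = ee x ^ n := by
  induction n with
  | zero => simp [ee_zero]
  | succ n ih =>
    rw [pow_succ, ← ih, ← ee_add]
    congr 1
    push_cast
    ring

theorem ee_sum {ι : Type*} (s : Finset ι) (f : ι → ℝ) : ee (∑ i ∈ s, f i) = ∏ i ∈ s, ee (f i) := by
  classical
  induction s using Finset.induction_on with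
  | empty => simp [ee_zero]
  | insert a s ha ih => rw [Finset.sum_insert ha, Finset.prod_insert ha, ee_add, ih]

theorem ee_eq_one_iff (x : ℝ) : ee x = 1 ↔ ∃ n : ℤ, x = n := by
  unfold ee
  rw [Complex.exp_eq_one_iff]
  constructor
  · rintro ⟨n, hn⟩
    refine ⟨n, ?_⟩
    have h2 : (2 * (Real.pi : ℂ) * Complex.I) ≠ 0 := by
      simp [Real.pi_ne_zero]
    have h3 : (2 * (Real.pi : ℂ) * Complex.I) * ((x : ℝ) : ℂ) =
        (2 * (Real.pi : ℂ) * Complex.I) * (n : ℂ) := by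
      rw [hn]; ring
    have h4 := mul_left_cancel₀ h2 h3
    exact_mod_cast h4
  · rintro ⟨n, rfl⟩
    exact ⟨n, by push_cast; ring⟩

/-- orthogonality of additive characters -/
theorem sum_ee_div (Q : ℕ) (hQ : 0 < Q) (m : ℤ) :
    ∑ j ∈ range Q, ee ((j : ℝ) / Q * m) = if (Q : ℤ) ∣ m then (Q : ℂ) else 0 := by
  have hQ' : (Q : ℝ) ≠ 0 := by exact_mod_cast hQ.ne'
  have e1 : ∀ j ∈ range Q, ee ((j : ℝ) / Q * m) = (ee ((m : ℝ) / Q)) ^ j := by
    intro j _
    rw [← ee_natCast_mul]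
    congr 1
    field_simp
  rw [Finset.sum_congr rfl e1]
  split_ifs with h
  · obtain ⟨c, hc⟩ := h
    have : ee ((m : ℝ) / Q) = 1 := by
      rw [hc]
      push_cast
      rw [mul_div_cancel_left₀ _ hQ']
      exact ee_int c
    rw [this]
    simp
  · have hne : ee ((m : ℝ) / Q) ≠ 1 := by
      intro h1
      rw [ee_eq_one_iff] at h1
      obtain ⟨n, hn⟩ := h1
      apply h
      refine ⟨n, ?_⟩
      rw [div_eq_iff hQ'] at hn
      have : (m : ℝ) = ((Q : ℤ) * n : ℤ) := by push_cast; linarith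
      exact_mod_cast this
    rw [geom_sum_eq hne]
    have : ee ((m : ℝ) / Q) ^ Q = 1 := by
      rw [← ee_natCast_mul, mul_div_cancel₀ _ hQ']
      exact ee_int m
    rw [this, sub_self, zero_div]

/-- The grid sum of a finite exponential sum. -/
theorem grid_sum {ι : Type*} (I : Finset ι) (a b : ι → ℤ) (R Q : ℕ) (hR : 0 < R) (hQ : 0 < Q) :
    ∑ r ∈ range R, ∑ j ∈ range Q, ∑ i ∈ I, ee ((r : ℝ) / R * a i + (j : ℝ) / Q * b i) =
      (R * Q * (I.filter (fun i => (R : ℤ) ∣ a i ∧ (Q : ℤ) ∣ b i)).card : ℂ) := by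
  classical
  have e1 : ∀ r ∈ range R, ∑ j ∈ range Q, ∑ i ∈ I, ee ((r : ℝ) / R * a i + (j : ℝ) / Q * b i) =
      ∑ i ∈ I, ee ((r : ℝ) / R * a i) * ∑ j ∈ range Q, ee ((j : ℝ) / Q * b i) := by
    intro r _
    rw [Finset.sum_comm]
    apply Finset.sum_congr rfl
    intro i _
    rw [Finset.mul_sum]
    exact Finset.sum_congr rfl (fun j _ => ee_add _ _)
  rw [Finset.sum_congr rfl e1, Finset.sum_comm]
  have e2 : ∀ i ∈ I, ∑ r ∈ range R, ee ((r : ℝ) / R * a i) *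
        ∑ j ∈ range Q, ee ((j : ℝ) / Q * b i) =
      if (R : ℤ) ∣ a i ∧ (Q : ℤ) ∣ b i then (R * Q : ℂ) else 0 := by
    intro i _
    rw [← Finset.sum_mul, sum_ee_div R hR, sum_ee_div Q hQ]
    by_cases h1 : (R : ℤ) ∣ a i <;> by_cases h2 : (Q : ℤ) ∣ b i <;> simp [h1, h2]
  rw [Finset.sum_congr rfl e2, ← Finset.sum_filter, Finset.sum_const, nsmul_eq_mul]
  ring

open Polynomial in
/-- Nikolskii inequality on a grid for polynomials. -/
theorem nikolskii (P : ℂ[X]) (B Q : ℕ) (hP : P.natDegree < B) (hBQ : B ≤ Q) (hQ : 0 < Q)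
    (ξ : ℝ) :
    ‖P.eval (ee ξ)‖ ^ 2 ≤ (B : ℝ) / Q * ∑ j ∈ range Q, ‖P.eval (ee ((j : ℝ) / Q))‖ ^ 2 := by
  have hQ' : (0 : ℝ) < Q := by exact_mod_cast hQ
  have e1 : ∀ z : ℂ, P.eval z = ∑ b ∈ range B, P.coeff b * z ^ b := by
    intro z
    rw [eval_eq_sum_range' hP]
  -- Parseval
  have hpars : ∑ j ∈ range Q, ‖P.eval (ee ((j : ℝ) / Q))‖ ^ 2
      = Q * ∑ b ∈ range B, ‖P.coeff b‖ ^ 2 := by
    have h2 : ((∑ j ∈ range Q, ‖P.eval (ee ((j : ℝ) / Q))‖ ^ 2 : ℝ) : ℂ)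
        = ((Q * ∑ b ∈ range B, ‖P.coeff b‖ ^ 2 : ℝ) : ℂ) := by
      push_cast
      have e2 : ∀ j ∈ range Q, ((‖P.eval (ee ((j : ℝ) / Q))‖ : ℂ)) ^ 2 =
          ∑ b ∈ range B, ∑ c ∈ range B, P.coeff b * (starRingEnd ℂ) (P.coeff c) *
            ee ((j : ℝ) / Q * ((b : ℤ) - (c : ℤ) : ℤ)) := by
        intro j _
        rw [← Complex.mul_conj', e1, map_sum, Finset.sum_mul_sum]
        apply Finset.sum_congr rfl
        intro b _
        apply Finset.sum_congr rfl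
        intro c _
        rw [map_mul, map_pow, conj_ee, ← ee_natCast_mul, ← ee_natCast_mul]
        have : ee ((j : ℝ) / Q * ((b : ℤ) - (c : ℤ) : ℤ)) =
            ee (b * ((j : ℝ) / Q)) * ee (c * -((j : ℝ) / Q)) := by
          rw [← ee_add]
          congr 1
          push_cast
          ring
        rw [this]
        ring
      rw [Finset.sum_congr rfl e2, Finset.sum_comm, Finset.mul_sum]
      apply Finset.sum_congr rfl
      intro b hb
      rw [Finset.sum_comm]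
      have e3 : ∀ c ∈ range B, ∑ j ∈ range Q, P.coeff b * (starRingEnd ℂ) (P.coeff c) *
            ee ((j : ℝ) / Q * ((b : ℤ) - (c : ℤ) : ℤ)) =
          if c = b then (Q : ℂ) * (‖P.coeff b‖ : ℂ) ^ 2 else 0 := by
        intro c hc
        rw [← Finset.mul_sum, sum_ee_div Q hQ]
        by_cases h : c = b
        · rw [h]
          simp [Complex.mul_conj']
          ring
        · have hb' := Finset.mem_range.1 hb
          have hc' := Finset.mem_range.1 hc
          have hnd : ¬ (Q : ℤ) ∣ ((b : ℤ) - (c : ℤ)) := by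
            intro hd
            have h5 : |((b : ℤ) - (c : ℤ))| < Q := by
              rw [abs_lt]
              constructor <;> omega
            have := Int.eq_zero_of_abs_lt_dvd hd h5
            omega
          simp [hnd, h]
      rw [Finset.sum_congr rfl e3, Finset.sum_ite_eq' (range B) b]
      simp [hb]
    exact_mod_cast h2
  rw [hpars]
  have h3 : ‖P.eval (ee ξ)‖ ≤ ∑ b ∈ range B, ‖P.coeff b‖ := by
    rw [e1]
    refine (norm_sum_le _ _).trans (Finset.sum_le_sum fun b _ => ?_)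
    rw [norm_mul, norm_pow, norm_ee, one_pow, mul_one]
  have h4 : (∑ b ∈ range B, ‖P.coeff b‖) ^ 2 ≤ B * ∑ b ∈ range B, ‖P.coeff b‖ ^ 2 := by
    have := sq_sum_le_card_mul_sum_sq (s := range B) (f := fun b => ‖P.coeff b‖)
    simpa using this
  calc ‖P.eval (ee ξ)‖ ^ 2 ≤ (∑ b ∈ range B, ‖P.coeff b‖) ^ 2 :=
        pow_le_pow_left₀ (norm_nonneg _) h3 2
    _ ≤ B * ∑ b ∈ range B, ‖P.coeff b‖ ^ 2 := h4
    _ = (B : ℝ) / Q * (Q * ∑ b ∈ range B, ‖P.coeff b‖ ^ 2) := by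
        field_simp

/-- Abel summation -/
theorem abel_identity (a w : ℕ → ℂ) (M : ℕ) :
    ∑ n ∈ Icc 1 M, a n * w n = (∑ n ∈ Icc 1 M, a n) * w M
      - ∑ m ∈ Ico 1 M, (∑ n ∈ Icc 1 m, a n) * (w (m + 1) - w m) := by
  induction M with
  | zero => simp
  | succ M ih =>
    rw [Finset.sum_Icc_succ_top (by omega), Finset.sum_Icc_succ_top (by omega), ih]
    rcases Nat.eq_zero_or_pos M with h | h
    · subst h
      simp
    · rw [Finset.sum_Ico_succ_top h]
      ring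

theorem abel_bound (a w : ℕ → ℂ) (M : ℕ) (B V : ℝ) (hB : ∀ m ≤ M, ‖∑ n ∈ Icc 1 m, a n‖ ≤ B)
    (hV : ‖w M‖ + ∑ m ∈ Ico 1 M, ‖w (m + 1) - w m‖ ≤ V) :
    ‖∑ n ∈ Icc 1 M, a n * w n‖ ≤ B * V := by
  have hB0 : 0 ≤ B := (norm_nonneg _).trans (hB 0 (Nat.zero_le _))
  rw [abel_identity]
  calc ‖(∑ n ∈ Icc 1 M, a n) * w M - ∑ m ∈ Ico 1 M, (∑ n ∈ Icc 1 m, a n) * (w (m + 1) - w m)‖
      ≤ ‖(∑ n ∈ Icc 1 M, a n) * w M‖ + ‖∑ m ∈ Ico 1 M, (∑ n ∈ Icc 1 m, a n) *
        (w (m + 1) - w m)‖ := norm_sub_le _ _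
    _ ≤ B * ‖w M‖ + ∑ m ∈ Ico 1 M, B * ‖w (m + 1) - w m‖ := by
        apply add_le_add
        · rw [norm_mul]
          exact mul_le_mul_of_nonneg_right (hB M le_rfl) (norm_nonneg _)
        · refine (norm_sum_le _ _).trans (Finset.sum_le_sum fun m hm => ?_)
          rw [norm_mul]
          exact mul_le_mul_of_nonneg_right (hB m (Finset.mem_Ico.1 hm).2.le) (norm_nonneg _)
    _ = B * (‖w M‖ + ∑ m ∈ Ico 1 M, ‖w (m + 1) - w m‖) := by
        rw [← Finset.mul_sum]; ring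
    _ ≤ B * V := mul_le_mul_of_nonneg_left hV hB0

theorem norm_ee_sub_le (x y : ℝ) : ‖ee x - ee y‖ ≤ 2 * Real.pi * |x - y| := by
  have e1 : ee x - ee y = ee y * (ee (x - y) - 1) := by
    rw [mul_sub, ← ee_add, mul_one]
    congr 2
    ring
  rw [e1, norm_mul, norm_ee, one_mul]
  unfold ee
  have : 2 * (Real.pi : ℂ) * Complex.I * (((x - y : ℝ)) : ℂ) =
      Complex.I * ((2 * Real.pi * (x - y) : ℝ) : ℂ) := by
    push_cast
    ring
  rw [this]
  have h := Real.norm_exp_I_mul_ofReal_sub_one_le (x := 2 * Real.pi * (x - y))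
  refine h.trans (le_of_eq ?_)
  rw [Real.norm_eq_abs, abs_mul, abs_of_pos (by positivity)]

end Pool.Agent.Helper69_Weyl
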