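import Pool.Agent.Helper69_Weyl.Basic

set_option autoImplicit false

/-! Moments of Weyl sums `∑ e(t n^k + ξ n)` on a grid. -/

namespace Pool.Agent.Helper69_Weyl

open Finset

/-- The Weyl sum `∑_{n=1}^N e(t n^k + ξ n)`. -/
noncomputable def W (k N : ℕ) (t ξ : ℝ) : ℂ := ∑ n ∈ Icc 1 N, ee (t * (n : ℝ) ^ k + ξ * (n : ℝ))

open Polynomial in
/-- The Weyl sum as a polynomial in `e(ξ)`. -/
noncomputable def WP (k N : ℕ) (t : ℝ) : ℂ[X] := ∑ n ∈ Icc 1 N, C (ee (t * (n : ℝ) ^ k)) * X ^ n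

open Polynomial in
theorem eval_WP (k N : ℕ) (t ξ : ℝ) : (WP k N t).eval (ee ξ) = W k N t ξ := by
  unfold WP W
  rw [eval_finsetSum]
  apply Finset.sum_congr rfl
  intro n _
  rw [eval_mul, eval_C, eval_pow, eval_X, ee_add, ← ee_natCast_mul]
  congr 2
  ring

open Polynomial in
theorem natDegree_WP (k N : ℕ) (t : ℝ) : (WP k N t).natDegree ≤ N := by
  unfold WP
  apply natDegree_sum_le_of_forall_le
  intro n hn
  exact (natDegree_C_mul_X_pow_le _ _).trans (Finset.mem_Icc.1 hn).2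

open Polynomial in
theorem nikolskii_W (k N s Q : ℕ) (hQ : s * N + 1 ≤ Q) (t ξ : ℝ) :
    ‖W k N t ξ‖ ^ (2 * s) ≤
      ((s * N + 1 : ℕ) : ℝ) / Q * ∑ j ∈ range Q, ‖W k N t ((j : ℝ) / Q)‖ ^ (2 * s) := by
  have h := nikolskii ((WP k N t) ^ s) (s * N + 1) Q (by
    refine lt_of_le_of_lt natDegree_pow_le ?_
    have := Nat.mul_le_mul_left s (natDegree_WP k N t)
    omega) hQ (by omega) ξ
  simp only [eval_pow, eval_WP, norm_pow] at h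
  simp only [← pow_mul, mul_comm s 2] at h
  exact h

/-- tuples of `s` integers in `[1, N]` -/
def Tup (s N : ℕ) : Finset (Fin s → ℕ) := Fintype.piFinset (fun _ => Icc 1 N)

theorem mem_Tup {s N : ℕ} {x : Fin s → ℕ} : x ∈ Tup s N ↔ ∀ i, 1 ≤ x i ∧ x i ≤ N := by
  simp [Tup]

theorem card_Tup (s N : ℕ) : (Tup s N).card = N ^ s := by
  simp [Tup, Fintype.card_piFinset]

/-- power sum -/
def ps (k : ℕ) {s : ℕ} (x : Fin s → ℕ) : ℤ := ∑ i, ((x i : ℤ)) ^ k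

theorem W_pow (k N s : ℕ) (t ξ : ℝ) :
    (W k N t ξ) ^ s = ∑ x ∈ Tup s N, ee (t * (ps k x : ℝ) + ξ * (ps 1 x : ℝ)) := by
  unfold W Tup
  rw [Finset.sum_pow']
  apply Finset.sum_congr rfl
  intro x _
  rw [← ee_sum]
  congr 1
  rw [Finset.sum_add_distrib]
  unfold ps
  push_cast
  rw [← Finset.mul_sum, ← Finset.mul_sum]
  simp

theorem norm_W_pow (k N s : ℕ) (t ξ : ℝ) :
    ((‖W k N t ξ‖ ^ (2 * s) : ℝ) : ℂ) = ∑ p ∈ Tup s N ×ˢ Tup s N,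
      ee (t * ((ps k p.1 - ps k p.2 : ℤ) : ℝ) + ξ * ((ps 1 p.1 - ps 1 p.2 : ℤ) : ℝ)) := by
  have h1 : ((‖W k N t ξ‖ ^ (2 * s) : ℝ) : ℂ) =
      (W k N t ξ) ^ s * (starRingEnd ℂ) ((W k N t ξ) ^ s) := by
    rw [Complex.mul_conj', norm_pow]
    push_cast
    rw [← pow_mul, mul_comm s 2]
  rw [h1, W_pow, map_sum, Finset.sum_mul_sum, Finset.sum_product]
  apply Finset.sum_congr rfl
  intro x _
  apply Finset.sum_congr rfl
  intro y _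
  rw [conj_ee, ← ee_add]
  congr 1
  push_cast
  ring

/-- general grid moment -/
theorem moment (k N s R Q : ℕ) (hR : 0 < R) (hQ : 0 < Q) :
    ∑ r ∈ range R, ∑ j ∈ range Q, ‖W k N ((r : ℝ) / R) ((j : ℝ) / Q)‖ ^ (2 * s) =
      (R : ℝ) * Q * (((Tup s N ×ˢ Tup s N).filter (fun p => (R : ℤ) ∣ ps k p.1 - ps k p.2 ∧
        (Q : ℤ) ∣ ps 1 p.1 - ps 1 p.2)).card : ℝ) := by
  have h := grid_sum (Tup s N ×ˢ Tup s N) (fun p => ps k p.1 - ps k p.2)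
    (fun p => ps 1 p.1 - ps 1 p.2) R Q hR hQ
  have h2 : ((∑ r ∈ range R, ∑ j ∈ range Q, ‖W k N ((r : ℝ) / R) ((j : ℝ) / Q)‖ ^ (2 * s) : ℝ) : ℂ)
      = (((R : ℝ) * Q * (((Tup s N ×ˢ Tup s N).filter (fun p => (R : ℤ) ∣ ps k p.1 - ps k p.2 ∧
        (Q : ℤ) ∣ ps 1 p.1 - ps 1 p.2)).card : ℝ) : ℝ) : ℂ) := by
    rw [Complex.ofReal_sum]
    simp only [Complex.ofReal_sum, norm_W_pow]
    rw [h]
    push_cast
    ring
  exact_mod_cast h2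

/-- for fixed `t`: the moment in the second variable -/
theorem moment_xi (k N s Q : ℕ) (hQ : 0 < Q) (t : ℝ) :
    ((∑ j ∈ range Q, ‖W k N t ((j : ℝ) / Q)‖ ^ (2 * s) : ℝ) : ℂ) =
      (Q : ℂ) * ∑ p ∈ (Tup s N ×ˢ Tup s N).filter (fun p => (Q : ℤ) ∣ ps 1 p.1 - ps 1 p.2),
        ee (t * ((ps k p.1 - ps k p.2 : ℤ) : ℝ)) := by
  rw [Complex.ofReal_sum]
  simp only [norm_W_pow]
  rw [Finset.sum_comm, Finset.mul_sum, Finset.sum_filter]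
  apply Finset.sum_congr rfl
  intro p _
  simp only [ee_add]
  rw [← Finset.mul_sum, sum_ee_div Q hQ]
  split_ifs
  · ring
  · ring

/-- the mixed moment -/
theorem moment_mixed (k N s R Q : ℕ) (hR : 0 < R) (hQ : 0 < Q) :
    ∑ r ∈ range R, (∑ j ∈ range Q, ‖W k N ((r : ℝ) / R) ((j : ℝ) / Q)‖ ^ (2 * s)) ^ 2 =
      (R : ℝ) * Q ^ 2 *
        (((((Tup s N ×ˢ Tup s N).filter (fun p => (Q : ℤ) ∣ ps 1 p.1 - ps 1 p.2)) ×ˢ
          ((Tup s N ×ˢ Tup s N).filter (fun p => (Q : ℤ) ∣ ps 1 p.1 - ps 1 p.2))).filter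
          (fun p => (R : ℤ) ∣ (ps k p.1.1 - ps k p.1.2) - (ps k p.2.1 - ps k p.2.2))).card : ℝ) := by
  set I := (Tup s N ×ˢ Tup s N).filter (fun p => (Q : ℤ) ∣ ps 1 p.1 - ps 1 p.2) with hI
  have h1 : ∀ r ∈ range R,
      (((∑ j ∈ range Q, ‖W k N ((r : ℝ) / R) ((j : ℝ) / Q)‖ ^ (2 * s)) ^ 2 : ℝ) : ℂ) =
      (Q : ℂ) ^ 2 * ∑ p ∈ I ×ˢ I, ee ((r : ℝ) / R *
        (((ps k p.1.1 - ps k p.1.2) - (ps k p.2.1 - ps k p.2.2) : ℤ) : ℝ)) := by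
    intro r _
    have h2 : (((∑ j ∈ range Q, ‖W k N ((r : ℝ) / R) ((j : ℝ) / Q)‖ ^ (2 * s)) ^ 2 : ℝ) : ℂ) =
        ((∑ j ∈ range Q, ‖W k N ((r : ℝ) / R) ((j : ℝ) / Q)‖ ^ (2 * s) : ℝ) : ℂ) *
        (starRingEnd ℂ)
          ((∑ j ∈ range Q, ‖W k N ((r : ℝ) / R) ((j : ℝ) / Q)‖ ^ (2 * s) : ℝ) : ℂ) := by
      rw [Complex.conj_ofReal]
      push_cast
      ring
    rw [h2, moment_xi k N s Q hQ, map_mul, map_sum]
    have h3 : (starRingEnd ℂ) (Q : ℂ) = Q := by simp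
    rw [h3, mul_mul_mul_comm, Finset.sum_mul_sum, Finset.sum_product, ← pow_two]
    congr 1
    apply Finset.sum_congr rfl
    intro x _
    apply Finset.sum_congr rfl
    intro y _
    rw [conj_ee, ← ee_add]
    congr 1
    push_cast
    ring
  have h4 : ((∑ r ∈ range R, (∑ j ∈ range Q, ‖W k N ((r : ℝ) / R) ((j : ℝ) / Q)‖ ^ (2 * s)) ^ 2
      : ℝ) : ℂ) = (((R : ℝ) * Q ^ 2 * (((I ×ˢ I).filter
          (fun p => (R : ℤ) ∣ (ps k p.1.1 - ps k p.1.2) - (ps k p.2.1 - ps k p.2.2))).card : ℝ)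
          : ℝ) : ℂ) := by
    rw [Complex.ofReal_sum, Finset.sum_congr rfl h1, ← Finset.mul_sum, Finset.sum_comm]
    simp only [sum_ee_div R hR]
    rw [← Finset.sum_filter, Finset.sum_const, nsmul_eq_mul]
    push_cast
    ring
  exact_mod_cast h4

end Pool.Agent.Helper69_Weyl
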