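import Pool.Agent.Helper69_Weyl.CountFour

set_option autoImplicit false

/-! Completion, perturbation of `t`, and the number of bad grid points. -/

namespace Pool.Agent.Helper69_Weyl

open Finset

theorem sin_ge (x : ℝ) (h0 : 0 ≤ x) (h1 : x ≤ 1) :
    2 * min x (1 - x) ≤ Real.sin (Real.pi * x) := by
  have hpi := Real.pi_pos
  rcases le_total x (1 / 2) with h | h
  · have h2 := Real.mul_le_sin (x := Real.pi * x) (by positivity) (by nlinarith)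
    have e : 2 / Real.pi * (Real.pi * x) = 2 * x := by field_simp
    rw [e] at h2
    have : min x (1 - x) ≤ x := min_le_left _ _
    linarith
  · have e1 : Real.sin (Real.pi * x) = Real.sin (Real.pi * (1 - x)) := by
      rw [← Real.sin_pi_sub]
      congr 1
      ring
    have h2 := Real.mul_le_sin (x := Real.pi * (1 - x)) (by nlinarith) (by nlinarith)
    have e : 2 / Real.pi * (Real.pi * (1 - x)) = 2 * (1 - x) := by field_simp
    rw [e] at h2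
    rw [e1]
    have : min x (1 - x) ≤ 1 - x := min_le_right _ _
    linarith

theorem norm_ee_neg_sub_one (x : ℝ) (h0 : 0 ≤ x) (h1 : x ≤ 1) :
    4 * min x (1 - x) ≤ ‖ee (-x) - 1‖ := by
  have e1 : ee (-x) = Complex.exp (Complex.I * ((-(2 * Real.pi * x) : ℝ) : ℂ)) := by
    unfold ee
    congr 1
    push_cast
    ring
  rw [e1, Complex.norm_exp_I_mul_ofReal_sub_one]
  have e2 : -(2 * Real.pi * x) / 2 = -(Real.pi * x) := by ring
  rw [e2, Real.sin_neg, mul_neg, norm_neg, Real.norm_eq_abs]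
  have := sin_ge x h0 h1
  calc 4 * min x (1 - x) = 2 * (2 * min x (1 - x)) := by ring
    _ ≤ 2 * Real.sin (Real.pi * x) := by linarith
    _ ≤ |2 * Real.sin (Real.pi * x)| := le_abs_self _

theorem norm_geom_le (z : ℂ) (hz : ‖z‖ = 1) (hz1 : z ≠ 1) (M : ℕ) :
    ‖∑ m ∈ Icc 1 M, z ^ m‖ ≤ 2 / ‖z - 1‖ := by
  have e1 : (∑ m ∈ Icc 1 M, z ^ m) * (z - 1) = z ^ (M + 1) - z := by
    induction M with
    | zero => simp
    | succ M ih =>
      rw [Finset.sum_Icc_succ_top (by omega), add_mul, ih]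
      ring
  have hne : ‖z - 1‖ ≠ 0 := by
    rw [norm_ne_zero_iff]
    exact sub_ne_zero.2 hz1
  have hpos : 0 < ‖z - 1‖ := lt_of_le_of_ne (norm_nonneg _) hne.symm
  rw [le_div_iff₀ hpos, ← norm_mul, e1]
  refine (norm_sub_le _ _).trans ?_
  rw [norm_pow, hz]
  norm_num

/-- the completion kernel is bounded in mean by a logarithm -/
theorem kernel_bound (N M : ℕ) (hN : 1 ≤ N) (hM : M ≤ N) :
    ∑ j ∈ range N, ‖∑ m ∈ Icc 1 M, ee (-((j : ℝ) / N) * m)‖ ≤ N * (2 + Real.log N) := by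
  have hN0 : (0 : ℝ) < N := by exact_mod_cast hN
  have hN1 : (1 : ℝ) ≤ N := by exact_mod_cast hN
  obtain ⟨n, rfl⟩ : ∃ n, N = n + 1 := ⟨N - 1, by omega⟩
  rw [Finset.sum_range_succ']
  have h0 : ‖∑ m ∈ Icc 1 M, ee (-(((0 : ℕ) : ℝ) / ((n + 1 : ℕ) : ℝ)) * m)‖ ≤ ((n + 1 : ℕ) : ℝ) := by
    refine (norm_sum_le _ _).trans ?_
    simp only [norm_ee]
    simp
    exact_mod_cast hM
  have h1 : ∀ j ∈ range n, ‖∑ m ∈ Icc 1 M, ee (-(((j + 1 : ℕ) : ℝ) / ((n + 1 : ℕ) : ℝ)) * m)‖ ≤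
      ((n + 1 : ℕ) : ℝ) / 2 * (((j + 1 : ℕ) : ℝ)⁻¹ + ((n - j : ℕ) : ℝ)⁻¹) := by
    intro j hj
    have hj' := Finset.mem_range.1 hj
    set x : ℝ := ((j + 1 : ℕ) : ℝ) / ((n + 1 : ℕ) : ℝ) with hx
    have hj1 : (0 : ℝ) < ((j + 1 : ℕ) : ℝ) := by positivity
    have hx0 : 0 < x := by positivity
    have hx1 : x < 1 := by
      rw [hx, div_lt_one hN0]
      exact_mod_cast (by omega : j + 1 < n + 1)
    have e1x : 1 - x = ((n - j : ℕ) : ℝ) / ((n + 1 : ℕ) : ℝ) := by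
      rw [hx]
      have : ((n - j : ℕ) : ℝ) = ((n + 1 : ℕ) : ℝ) - ((j + 1 : ℕ) : ℝ) := by
        rw [Nat.cast_sub hj'.le]
        push_cast
        ring
      rw [this, sub_div, div_self hN0.ne']
    have hnj : (0 : ℝ) < ((n - j : ℕ) : ℝ) := by
      have : 0 < n - j := by omega
      exact_mod_cast this
    have hge := norm_ee_neg_sub_one x hx0.le hx1.le
    have hmin : 0 < min x (1 - x) := lt_min hx0 (by linarith)
    have hne : ee (-x) ≠ 1 := by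
      intro h
      rw [h, sub_self, norm_zero] at hge
      linarith
    have e2 : ∀ m ∈ Icc 1 M, ee (-x * m) = ee (-x) ^ m := by
      intro m _
      rw [← ee_natCast_mul]
      congr 1
      ring
    rw [Finset.sum_congr rfl e2]
    refine (norm_geom_le _ (norm_ee _) hne M).trans ?_
    calc 2 / ‖ee (-x) - 1‖ ≤ 2 / (4 * min x (1 - x)) :=
          div_le_div_of_nonneg_left (by norm_num) (by positivity) hge
      _ = 1 / 2 * (min x (1 - x))⁻¹ := by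
          field_simp
          norm_num
      _ ≤ 1 / 2 * (x⁻¹ + (1 - x)⁻¹) := by
          apply mul_le_mul_of_nonneg_left _ (by norm_num)
          have a1 : 0 < x⁻¹ := inv_pos.2 hx0
          have a2 : 0 < (1 - x)⁻¹ := inv_pos.2 (by linarith)
          rcases le_total x (1 - x) with h | h
          · rw [min_eq_left h]; linarith
          · rw [min_eq_right h]; linarith
      _ = ((n + 1 : ℕ) : ℝ) / 2 * (((j + 1 : ℕ) : ℝ)⁻¹ + ((n - j : ℕ) : ℝ)⁻¹) := by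
          rw [e1x, hx, inv_div, inv_div]
          ring
  have h2 : ∑ j ∈ range n, (((j + 1 : ℕ) : ℝ)⁻¹ + ((n - j : ℕ) : ℝ)⁻¹) ≤
      2 * (1 + Real.log ((n + 1 : ℕ) : ℝ)) := by
    have hh : ((harmonic n : ℚ) : ℝ) = ∑ j ∈ range n, ((j + 1 : ℕ) : ℝ)⁻¹ := by
      unfold harmonic
      push_cast
      rfl
    have hr : ∑ j ∈ range n, ((n - j : ℕ) : ℝ)⁻¹ = ∑ j ∈ range n, ((j + 1 : ℕ) : ℝ)⁻¹ := by
      rw [← Finset.sum_range_reflect]
      apply Finset.sum_congr rfl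
      intro j hj
      have := Finset.mem_range.1 hj
      congr 2
      omega
    rw [Finset.sum_add_distrib, hr, ← hh]
    have h3 := harmonic_le_one_add_log n
    have h4 : Real.log (n : ℝ) ≤ Real.log ((n + 1 : ℕ) : ℝ) := by
      rcases Nat.eq_zero_or_pos n with h | h
      · subst h
        simp
      · apply Real.log_le_log
        · exact_mod_cast h
        · push_cast; linarith
    linarith
  calc ∑ j ∈ range n, ‖∑ m ∈ Icc 1 M, ee (-(((j + 1 : ℕ) : ℝ) / ((n + 1 : ℕ) : ℝ)) * m)‖ +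
        ‖∑ m ∈ Icc 1 M, ee (-(((0 : ℕ) : ℝ) / ((n + 1 : ℕ) : ℝ)) * m)‖
      ≤ ∑ j ∈ range n, ((n + 1 : ℕ) : ℝ) / 2 * (((j + 1 : ℕ) : ℝ)⁻¹ + ((n - j : ℕ) : ℝ)⁻¹) +
        ((n + 1 : ℕ) : ℝ) := add_le_add (Finset.sum_le_sum h1) h0
    _ = ((n + 1 : ℕ) : ℝ) / 2 * ∑ j ∈ range n, (((j + 1 : ℕ) : ℝ)⁻¹ + ((n - j : ℕ) : ℝ)⁻¹) +
        ((n + 1 : ℕ) : ℝ) := by rw [Finset.mul_sum]
    _ ≤ ((n + 1 : ℕ) : ℝ) / 2 * (2 * (1 + Real.log ((n + 1 : ℕ) : ℝ))) + ((n + 1 : ℕ) : ℝ) := by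
        gcongr
    _ = ((n + 1 : ℕ) : ℝ) * (2 + Real.log ((n + 1 : ℕ) : ℝ)) := by ring

/-- Completion: partial sums are controlled by the complete sum, uniformly in `ξ`. -/
theorem completion (k N M : ℕ) (hN : 1 ≤ N) (hM : M ≤ N) (t : ℝ) (B : ℝ)
    (hB : ∀ η, ‖W k N t η‖ ≤ B) (ξ : ℝ) : ‖W k M t ξ‖ ≤ (2 + Real.log N) * B := by
  have hN0 : (0 : ℝ) < N := by exact_mod_cast hN
  have hB0 : 0 ≤ B := (norm_nonneg _).trans (hB 0)
  have key : (N : ℂ) * W k M t ξ = ∑ j ∈ range N, (∑ m ∈ Icc 1 M, ee (-((j : ℝ) / N) * m)) *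
      W k N t (ξ + (j : ℝ) / N) := by
    have e1 : ∀ j ∈ range N, (∑ m ∈ Icc 1 M, ee (-((j : ℝ) / N) * m)) *
        W k N t (ξ + (j : ℝ) / N) = ∑ m ∈ Icc 1 M, ∑ n ∈ Icc 1 N,
          ee (t * (n : ℝ) ^ k + ξ * n) * ee ((j : ℝ) / N * ((n : ℤ) - (m : ℤ) : ℤ)) := by
      intro j _
      unfold W
      rw [Finset.sum_mul_sum]
      apply Finset.sum_congr rfl
      intro m _
      apply Finset.sum_congr rfl
      intro n _
      rw [← ee_add, ← ee_add]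
      congr 1
      push_cast
      ring
    rw [Finset.sum_congr rfl e1, Finset.sum_comm]
    have e2 : ∀ m ∈ Icc 1 M, ∑ j ∈ range N, ∑ n ∈ Icc 1 N,
          ee (t * (n : ℝ) ^ k + ξ * n) * ee ((j : ℝ) / N * ((n : ℤ) - (m : ℤ) : ℤ)) =
          (N : ℂ) * ee (t * (m : ℝ) ^ k + ξ * m) := by
      intro m hm
      have hm' := Finset.mem_Icc.1 hm
      rw [Finset.sum_comm]
      have e3 : ∀ n ∈ Icc 1 N, ∑ j ∈ range N,
          ee (t * (n : ℝ) ^ k + ξ * n) * ee ((j : ℝ) / N * ((n : ℤ) - (m : ℤ) : ℤ)) =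
          if n = m then (N : ℂ) * ee (t * (m : ℝ) ^ k + ξ * m) else 0 := by
        intro n hn
        have hn' := Finset.mem_Icc.1 hn
        rw [← Finset.mul_sum, sum_ee_div N (by omega)]
        by_cases h : n = m
        · subst h
          simp
          ring
        · have hnd : ¬ (N : ℤ) ∣ ((n : ℤ) - (m : ℤ)) := by
            intro hd
            have h5 : |((n : ℤ) - (m : ℤ))| < N := by
              rw [abs_lt]
              constructor <;> omega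
            have := Int.eq_zero_of_abs_lt_dvd hd h5
            omega
          simp [hnd, h]
      rw [Finset.sum_congr rfl e3, Finset.sum_ite_eq']
      rw [if_pos]
      rw [Finset.mem_Icc]
      omega
    rw [Finset.sum_congr rfl e2, ← Finset.mul_sum]
    rfl
  have h1 : (N : ℝ) * ‖W k M t ξ‖ ≤ N * (2 + Real.log N) * B := by
    calc (N : ℝ) * ‖W k M t ξ‖ = ‖(N : ℂ) * W k M t ξ‖ := by
          rw [norm_mul]; simp
      _ ≤ ∑ j ∈ range N, ‖(∑ m ∈ Icc 1 M, ee (-((j : ℝ) / N) * m)) *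
            W k N t (ξ + (j : ℝ) / N)‖ := by
          rw [key]; exact norm_sum_le _ _
      _ ≤ ∑ j ∈ range N, ‖∑ m ∈ Icc 1 M, ee (-((j : ℝ) / N) * m)‖ * B := by
          apply Finset.sum_le_sum
          intro j _
          rw [norm_mul]
          exact mul_le_mul_of_nonneg_left (hB _) (norm_nonneg _)
      _ = (∑ j ∈ range N, ‖∑ m ∈ Icc 1 M, ee (-((j : ℝ) / N) * m)‖) * B := by
          rw [Finset.sum_mul]
      _ ≤ N * (2 + Real.log N) * B := mul_le_mul_of_nonneg_right (kernel_bound N M hN hM) hB0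
  have h2 : (N : ℝ) * ‖W k M t ξ‖ ≤ N * ((2 + Real.log N) * B) := by linarith
  exact le_of_mul_le_mul_left h2 hN0

/-- Changing `t` a little. -/
theorem perturb (k M : ℕ) (t t₀ ξ : ℝ) (B : ℝ) (hB : ∀ m ≤ M, ‖W k m t₀ ξ‖ ≤ B)
    (D : ℝ) (hD : |t - t₀| * (M : ℝ) ^ k ≤ D) :
    ‖W k M t ξ‖ ≤ B * (1 + 2 * Real.pi * D) := by
  have e1 : W k M t ξ = ∑ n ∈ Icc 1 M, ee (t₀ * (n : ℝ) ^ k + ξ * n) * ee ((t - t₀) * (n : ℝ) ^ k) := by
    unfold W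
    apply Finset.sum_congr rfl
    intro n _
    rw [← ee_add]
    congr 1
    ring
  rw [e1]
  apply abel_bound (fun n => ee (t₀ * (n : ℝ) ^ k + ξ * n)) (fun n => ee ((t - t₀) * (n : ℝ) ^ k))
  · exact hB
  · rw [norm_ee]
    have h1 : ∀ m ∈ Ico 1 M, ‖ee ((t - t₀) * ((m + 1 : ℕ) : ℝ) ^ k) - ee ((t - t₀) * (m : ℝ) ^ k)‖ ≤
        2 * Real.pi * |t - t₀| * (((m + 1 : ℕ) : ℝ) ^ k - (m : ℝ) ^ k) := by
      intro m _
      refine (norm_ee_sub_le _ _).trans (le_of_eq ?_)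
      rw [← mul_sub, abs_mul]
      have : (m : ℝ) ^ k ≤ ((m + 1 : ℕ) : ℝ) ^ k := by
        apply pow_le_pow_left₀ (by positivity)
        push_cast
        linarith
      rw [abs_of_nonneg (sub_nonneg.2 this)]
      ring
    have h2 : ∑ m ∈ Ico 1 M, (((m + 1 : ℕ) : ℝ) ^ k - (m : ℝ) ^ k) ≤ (M : ℝ) ^ k := by
      rcases Nat.eq_zero_or_pos M with h | h
      · subst h
        simp
      · have := Finset.sum_Ico_sub (fun m : ℕ => (m : ℝ) ^ k) h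
        rw [this]
        have h1 : (0 : ℝ) ≤ ((1 : ℕ) : ℝ) ^ k := by positivity
        linarith
    have h3 : ∑ m ∈ Ico 1 M, ‖ee ((t - t₀) * ((m + 1 : ℕ) : ℝ) ^ k) - ee ((t - t₀) * (m : ℝ) ^ k)‖ ≤
        2 * Real.pi * |t - t₀| * (M : ℝ) ^ k := by
      refine (Finset.sum_le_sum h1).trans ?_
      rw [← Finset.mul_sum]
      exact mul_le_mul_of_nonneg_left h2 (by positivity)
    have h4 : 2 * Real.pi * |t - t₀| * (M : ℝ) ^ k ≤ 2 * Real.pi * D := by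
      rw [mul_assoc]
      exact mul_le_mul_of_nonneg_left hD (by positivity)
    linarith

theorem W_add_int (k N : ℕ) (t ξ : ℝ) (m : ℤ) : W k N (t + m) ξ = W k N t ξ := by
  unfold W
  apply Finset.sum_congr rfl
  intro n _
  have : (t + m) * (n : ℝ) ^ k + ξ * n = (t * (n : ℝ) ^ k + ξ * n) + ((m * (n : ℤ) ^ k : ℤ) : ℝ) := by
    push_cast
    ring
  rw [this, ee_add, ee_int, mul_one]

open Classical in
/-- bad grid points -/
noncomputable def bad (k N R : ℕ) (B : ℝ) : Finset ℕ :=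
  (range R).filter (fun r => ∃ ξ, B ≤ ‖W k N ((r : ℝ) / R) ξ‖)

theorem bad_three (k : ℕ) (hk : 3 ≤ k) (hodd : Odd k) (δ : ℝ) (hδ : 0 < δ) :
    ∃ C : ℝ, 0 ≤ C ∧ ∀ N : ℕ, 1 ≤ N → ∀ B : ℝ, 0 ≤ B →
      ((bad k N (4 * N ^ k) B).card : ℝ) * B ^ 6 ≤ C * (4 * (N : ℝ) ^ k) * (N : ℝ) ^ (4 + δ) := by
  classical
  obtain ⟨C, hC0, hC⟩ := count_three k hk hodd δ hδ
  refine ⟨4 * C, by positivity, ?_⟩
  intro N hN B hB
  have hN0 : (0 : ℝ) < N := by exact_mod_cast hN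
  have hNk : 0 < N ^ k := by positivity
  have hc := hC N hN (4 * N ^ k) (4 * N) (by omega) (by omega)
  have hm := moment k N 3 (4 * N ^ k) (4 * N) (by omega) (by omega)
  have h1 : ∀ r ∈ bad k N (4 * N ^ k) B, B ^ 6 ≤
      ∑ j ∈ range (4 * N), ‖W k N ((r : ℝ) / ((4 * N ^ k : ℕ) : ℝ)) ((j : ℝ) / ((4 * N : ℕ) : ℝ))‖ ^ (2 * 3) := by
    intro r hr
    unfold bad at hr
    rw [Finset.mem_filter] at hr
    obtain ⟨-, ξ, hξ⟩ := hr
    have h2 := nikolskii_W k N 3 (4 * N) (by omega) ((r : ℝ) / ((4 * N ^ k : ℕ) : ℝ)) ξ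
    have h3 : (((3 * N + 1 : ℕ) : ℝ) / ((4 * N : ℕ) : ℝ)) ≤ 1 := by
      rw [div_le_one (by positivity)]
      exact_mod_cast (by omega : 3 * N + 1 ≤ 4 * N)
    have h4 : (0 : ℝ) ≤ ∑ j ∈ range (4 * N), ‖W k N ((r : ℝ) / ((4 * N ^ k : ℕ) : ℝ))
        ((j : ℝ) / ((4 * N : ℕ) : ℝ))‖ ^ (2 * 3) := Finset.sum_nonneg (fun _ _ => by positivity)
    calc B ^ 6 ≤ ‖W k N ((r : ℝ) / ((4 * N ^ k : ℕ) : ℝ)) ξ‖ ^ (2 * 3) :=
          pow_le_pow_left₀ hB hξ 6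
      _ ≤ _ := h2
      _ ≤ 1 * _ := mul_le_mul_of_nonneg_right h3 h4
      _ = _ := one_mul _
  calc ((bad k N (4 * N ^ k) B).card : ℝ) * B ^ 6 = ∑ r ∈ bad k N (4 * N ^ k) B, B ^ 6 := by
        rw [Finset.sum_const, nsmul_eq_mul]
    _ ≤ ∑ r ∈ bad k N (4 * N ^ k) B, ∑ j ∈ range (4 * N), ‖W k N ((r : ℝ) / ((4 * N ^ k : ℕ) : ℝ))
        ((j : ℝ) / ((4 * N : ℕ) : ℝ))‖ ^ (2 * 3) := Finset.sum_le_sum h1
    _ ≤ ∑ r ∈ range (4 * N ^ k), ∑ j ∈ range (4 * N), ‖W k N ((r : ℝ) / ((4 * N ^ k : ℕ) : ℝ))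
        ((j : ℝ) / ((4 * N : ℕ) : ℝ))‖ ^ (2 * 3) := by
        apply Finset.sum_le_sum_of_subset_of_nonneg
        · exact Finset.filter_subset _ _
        · intro _ _ _
          exact Finset.sum_nonneg (fun _ _ => by positivity)
    _ ≤ ((4 * N ^ k : ℕ) : ℝ) * ((4 * N : ℕ) : ℝ) * (C * (N : ℝ) ^ (3 + δ)) := by
        rw [hm]
        exact mul_le_mul_of_nonneg_left hc (by positivity)
    _ = 4 * C * (4 * (N : ℝ) ^ k) * (N : ℝ) ^ (4 + δ) := by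
        have e : (N : ℝ) ^ (4 + δ) = N * (N : ℝ) ^ (3 + δ) := by
          have : (4 : ℝ) + δ = 1 + (3 + δ) := by ring
          rw [this, Real.rpow_add hN0, Real.rpow_one]
        rw [e]
        push_cast
        ring

theorem bad_four (k : ℕ) (hk : 2 ≤ k) (δ : ℝ) (hδ : 0 < δ) :
    ∃ C : ℝ, 0 ≤ C ∧ ∀ N : ℕ, 1 ≤ N → ∀ B : ℝ, 0 ≤ B →
      ((bad k N (4 * N ^ k) B).card : ℝ) * B ^ 8 ≤ C * (4 * (N : ℝ) ^ k) * (N : ℝ) ^ (6 + δ) := by
  classical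
  obtain ⟨C, hC0, hC⟩ := count_four k hk δ hδ
  refine ⟨9 * C, by positivity, ?_⟩
  intro N hN B hB
  have hN0 : (0 : ℝ) < N := by exact_mod_cast hN
  have hN1 : (1 : ℝ) ≤ N := by exact_mod_cast hN
  have hNk : 0 < N ^ k := by positivity
  have hc := hC N hN (4 * N ^ k) (4 * N) (by omega) (by omega)
  have hm := moment_mixed k N 2 (4 * N ^ k) (4 * N) (by omega) (by omega)
  have h1 : ∀ r ∈ bad k N (4 * N ^ k) B, B ^ 8 ≤ (((2 * N + 1 : ℕ) : ℝ) / ((4 * N : ℕ) : ℝ)) ^ 2 *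
      (∑ j ∈ range (4 * N), ‖W k N ((r : ℝ) / ((4 * N ^ k : ℕ) : ℝ)) ((j : ℝ) / ((4 * N : ℕ) : ℝ))‖ ^ (2 * 2)) ^ 2 := by
    intro r hr
    unfold bad at hr
    rw [Finset.mem_filter] at hr
    obtain ⟨-, ξ, hξ⟩ := hr
    have h2 := nikolskii_W k N 2 (4 * N) (by omega) ((r : ℝ) / ((4 * N ^ k : ℕ) : ℝ)) ξ
    have h3 : B ^ 4 ≤ ‖W k N ((r : ℝ) / ((4 * N ^ k : ℕ) : ℝ)) ξ‖ ^ (2 * 2) :=
      pow_le_pow_left₀ hB hξ 4
    have h4 := h3.trans h2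
    calc B ^ 8 = (B ^ 4) ^ 2 := by ring
      _ ≤ _ := pow_le_pow_left₀ (by positivity) h4 2
      _ = _ := by rw [mul_pow]
  calc ((bad k N (4 * N ^ k) B).card : ℝ) * B ^ 8 = ∑ r ∈ bad k N (4 * N ^ k) B, B ^ 8 := by
        rw [Finset.sum_const, nsmul_eq_mul]
    _ ≤ ∑ r ∈ bad k N (4 * N ^ k) B, (((2 * N + 1 : ℕ) : ℝ) / ((4 * N : ℕ) : ℝ)) ^ 2 *
      (∑ j ∈ range (4 * N), ‖W k N ((r : ℝ) / ((4 * N ^ k : ℕ) : ℝ)) ((j : ℝ) / ((4 * N : ℕ) : ℝ))‖ ^ (2 * 2)) ^ 2 :=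
        Finset.sum_le_sum h1
    _ ≤ ∑ r ∈ range (4 * N ^ k), (((2 * N + 1 : ℕ) : ℝ) / ((4 * N : ℕ) : ℝ)) ^ 2 *
      (∑ j ∈ range (4 * N), ‖W k N ((r : ℝ) / ((4 * N ^ k : ℕ) : ℝ)) ((j : ℝ) / ((4 * N : ℕ) : ℝ))‖ ^ (2 * 2)) ^ 2 := by
        apply Finset.sum_le_sum_of_subset_of_nonneg
        · exact Finset.filter_subset _ _
        · intro _ _ _
          positivity
    _ = (((2 * N + 1 : ℕ) : ℝ) / ((4 * N : ℕ) : ℝ)) ^ 2 * (((4 * N ^ k : ℕ) : ℝ) * ((4 * N : ℕ) : ℝ) ^ 2 *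
        (((((Tup 2 N ×ˢ Tup 2 N).filter (fun p => ((4 * N : ℕ) : ℤ) ∣ ps 1 p.1 - ps 1 p.2)) ×ˢ
          ((Tup 2 N ×ˢ Tup 2 N).filter (fun p => ((4 * N : ℕ) : ℤ) ∣ ps 1 p.1 - ps 1 p.2))).filter
          (fun p => ((4 * N ^ k : ℕ) : ℤ) ∣ (ps k p.1.1 - ps k p.1.2) - (ps k p.2.1 - ps k p.2.2))).card : ℝ)) := by
        rw [← Finset.mul_sum, hm]
    _ ≤ (((2 * N + 1 : ℕ) : ℝ) / ((4 * N : ℕ) : ℝ)) ^ 2 * (((4 * N ^ k : ℕ) : ℝ) * ((4 * N : ℕ) : ℝ) ^ 2 *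
        (C * (N : ℝ) ^ (4 + δ))) := by
        apply mul_le_mul_of_nonneg_left _ (by positivity)
        exact mul_le_mul_of_nonneg_left hc (by positivity)
    _ = (((2 * N + 1 : ℕ) : ℝ)) ^ 2 * (4 * (N : ℝ) ^ k) * (C * (N : ℝ) ^ (4 + δ)) := by
        push_cast
        field_simp
    _ ≤ (3 * (N : ℝ)) ^ 2 * (4 * (N : ℝ) ^ k) * (C * (N : ℝ) ^ (4 + δ)) := by
        gcongr
        push_cast
        linarith
    _ = 9 * C * (4 * (N : ℝ) ^ k) * (N : ℝ) ^ (6 + δ) := by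
        have e : (N : ℝ) ^ (6 + δ) = (N : ℝ) ^ 2 * (N : ℝ) ^ (4 + δ) := by
          have : (6 : ℝ) + δ = 2 + (4 + δ) := by ring
          rw [this, Real.rpow_add hN0]
          congr 1
          rw [← Real.rpow_natCast]
          norm_num
        rw [e]
        ring

end Pool.Agent.Helper69_Weyl
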