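import Pool.Agent.Helper69_Weyl.Transfer

set_option autoImplicit false

/-! Hausdorff dimension of the exceptional set. -/

namespace Pool.Agent.Helper69_Weyl

open Finset MeasureTheory Filter Topology
open scoped ENNReal NNReal

/-- the set of `t` for which `sup_ξ |W| ≪ N^{1-1/k+ε}` fails -/
def Exc (k : ℕ) (ε : ℝ) : Set ℝ :=
  {t | ¬ ∃ C : ℝ, ∀ N : ℕ, 1 ≤ N → ∀ ξ : ℝ, ‖W k N t ξ‖ ≤ C * (N : ℝ) ^ (1 - 1 / (k : ℝ) + ε)}

theorem norm_W_le (k N : ℕ) (t ξ : ℝ) : ‖W k N t ξ‖ ≤ N := by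
  unfold W
  refine (norm_sum_le _ _).trans ?_
  simp only [norm_ee]
  simp

theorem mem_bad {k N R : ℕ} {B : ℝ} {r : ℕ} :
    r ∈ bad k N R B ↔ r < R ∧ ∃ ξ, B ≤ ‖W k N ((r : ℝ) / R) ξ‖ := by
  classical
  unfold bad
  rw [Finset.mem_filter, Finset.mem_range]

/-- If `t` is not close to bad grid points at all large dyadic scales, then `t` is not
exceptional. -/
theorem not_mem_Exc (k : ℕ) (hk : 3 ≤ k) (ε η : ℝ) (hε : 0 ≤ ε) (hη : 0 < η) (m : ℤ) (i₀ : ℕ)
    (t : ℝ) (ht : t ∈ Set.Ico (m : ℝ) (m + 1))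
    (h : ∀ i, i₀ ≤ i → ∀ r ∈ bad k (2 ^ i) (4 * (2 ^ i) ^ k)
      (((2 ^ i : ℕ) : ℝ) ^ (1 - 1 / (k : ℝ) + ε - η)),
      ¬ |t - (m + (r : ℝ) / ((4 * (2 ^ i) ^ k : ℕ) : ℝ))| ≤ 1 / ((4 * (2 ^ i) ^ k : ℕ) : ℝ)) :
    t ∉ Exc k ε := by
  have hk0 : (0 : ℝ) < k := by exact_mod_cast (by omega : 0 < k)
  have hk1 : 1 / (k : ℝ) ≤ 1 := by
    rw [div_le_one hk0]
    exact_mod_cast (by omega : 1 ≤ k)
  have hexp : 0 ≤ 1 - 1 / (k : ℝ) + ε := by linarith
  unfold Exc
  rw [Set.mem_ofPred_eq, not_not]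
  -- the bound at scale i
  have hscale : ∀ i, i₀ ≤ i → ∀ M, M ≤ 2 ^ i → ∀ ξ, ‖W k M t ξ‖ ≤
      3 * (2 + 1 / η) * ((2 ^ i : ℕ) : ℝ) ^ (1 - 1 / (k : ℝ) + ε) := by
    intro i hi M hM ξ
    set N : ℕ := 2 ^ i with hN
    have hN1 : 1 ≤ N := Nat.one_le_two_pow
    have hN0 : (0 : ℝ) < N := by exact_mod_cast hN1
    have hN1' : (1 : ℝ) ≤ N := by exact_mod_cast hN1
    set R : ℕ := 4 * N ^ k with hR
    have hR0 : (0 : ℝ) < R := by
      have : 0 < R := by positivity
      exact_mod_cast this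
    set B : ℝ := (N : ℝ) ^ (1 - 1 / (k : ℝ) + ε - η) with hB
    set r : ℕ := ⌊(t - m) * R⌋₊ with hr
    have ht0 : 0 ≤ (t - m) * R := mul_nonneg (by linarith [ht.1]) hR0.le
    have hr1 : (r : ℝ) ≤ (t - m) * R := Nat.floor_le ht0
    have hr2 : (t - m) * R < r + 1 := Nat.lt_floor_add_one _
    have hrR : r < R := by
      have h1 : (r : ℝ) < R := by
        calc (r : ℝ) ≤ (t - m) * R := hr1
          _ < 1 * R := mul_lt_mul_of_pos_right (by linarith [ht.2]) hR0
          _ = R := one_mul _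
      exact_mod_cast h1
    have hclose : |t - (m + (r : ℝ) / R)| ≤ 1 / R := by
      have h1 : (r : ℝ) / R ≤ t - m := by rw [div_le_iff₀ hR0]; exact hr1
      have h2 : t - m < (r : ℝ) / R + 1 / R := by
        rw [← add_div, lt_div_iff₀ hR0]; exact hr2
      rw [abs_le]
      constructor <;> linarith
    have hnb : r ∉ bad k N R B := fun hb => h i hi r hb hclose
    have hW : ∀ η', ‖W k N ((r : ℝ) / R) η'‖ ≤ B := by
      intro η'
      by_contra hcon
      push Not at hcon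
      apply hnb
      rw [mem_bad]
      exact ⟨hrR, η', hcon.le⟩
    have hcomp : ∀ M' ≤ M, ‖W k M' ((r : ℝ) / R) ξ‖ ≤ (2 + Real.log N) * B :=
      fun M' hM' => completion k N M' hN1 (hM'.trans hM) _ B hW ξ
    have hpert := perturb k M (t - m) ((r : ℝ) / R) ξ ((2 + Real.log N) * B) hcomp (1 / 4) (by
      have h1 : |t - m - (r : ℝ) / R| ≤ 1 / R := by
        have : t - m - (r : ℝ) / R = t - (m + (r : ℝ) / R) := by ring
        rw [this]; exact hclose
      have h2 : (M : ℝ) ^ k ≤ (N : ℝ) ^ k := pow_le_pow_left₀ (by positivity) (by exact_mod_cast hM) k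
      calc |t - m - (r : ℝ) / R| * (M : ℝ) ^ k ≤ 1 / R * (N : ℝ) ^ k :=
            mul_le_mul h1 h2 (by positivity) (by positivity)
        _ = 1 / 4 := by
            rw [hR]
            push_cast
            have : (N : ℝ) ^ k ≠ 0 := by positivity
            field_simp)
    have hper : W k M t ξ = W k M (t - m) ξ := by
      have := W_add_int k M (t - m) ξ m
      rw [← this]
      congr 1
      ring
    rw [hper]
    refine hpert.trans ?_
    have hB0 : 0 ≤ B := by positivity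
    have hlog : 2 + Real.log N ≤ (2 + 1 / η) * (N : ℝ) ^ η := by
      have h1 := Real.log_le_rpow_div hN0.le hη
      have h2 : 1 ≤ (N : ℝ) ^ η := Real.one_le_rpow hN1' hη.le
      have h3 : (N : ℝ) ^ η / η = 1 / η * (N : ℝ) ^ η := by ring
      rw [h3] at h1
      nlinarith
    have hlog0 : 0 ≤ 2 + Real.log N := by
      have := Real.log_nonneg hN1'
      linarith
    have hpi : 1 + 2 * Real.pi * (1 / 4) ≤ 3 := by
      have := Real.pi_lt_four
      linarith
    calc (2 + Real.log N) * B * (1 + 2 * Real.pi * (1 / 4)) ≤ (2 + Real.log N) * B * 3 := by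
          apply mul_le_mul_of_nonneg_left hpi (by positivity)
      _ ≤ ((2 + 1 / η) * (N : ℝ) ^ η) * B * 3 := by
          gcongr
      _ = 3 * (2 + 1 / η) * ((N : ℝ) ^ η * B) := by ring
      _ = 3 * (2 + 1 / η) * (N : ℝ) ^ (1 - 1 / (k : ℝ) + ε) := by
          rw [hB, ← Real.rpow_add hN0]
          congr 2
          ring
  refine ⟨2 ^ i₀ + 3 * (2 + 1 / η) * 2 ^ (1 - 1 / (k : ℝ) + ε), ?_⟩
  intro M hM ξ
  have hM0 : (0 : ℝ) < M := by exact_mod_cast hM
  have hM1 : (1 : ℝ) ≤ M := by exact_mod_cast hM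
  have hMe : 1 ≤ (M : ℝ) ^ (1 - 1 / (k : ℝ) + ε) := Real.one_le_rpow hM1 hexp
  by_cases hc : M < 2 ^ i₀
  · calc ‖W k M t ξ‖ ≤ M := norm_W_le _ _ _ _
      _ ≤ 2 ^ i₀ := by exact_mod_cast hc.le
      _ = 2 ^ i₀ * 1 := (mul_one _).symm
      _ ≤ (2 ^ i₀ + 3 * (2 + 1 / η) * 2 ^ (1 - 1 / (k : ℝ) + ε)) *
            (M : ℝ) ^ (1 - 1 / (k : ℝ) + ε) := by
          apply mul_le_mul _ hMe (by norm_num) (by positivity)
          have : (0 : ℝ) ≤ 3 * (2 + 1 / η) * 2 ^ (1 - 1 / (k : ℝ) + ε) := by positivity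
          linarith
  · push Not at hc
    set i := Nat.log 2 M + 1 with hi
    have hi1 : M ≤ 2 ^ i := (Nat.lt_pow_succ_log_self (by norm_num) M).le
    have hi2 : 2 ^ i ≤ 2 * M := by
      have := Nat.pow_log_le_self 2 (by omega : M ≠ 0)
      rw [hi, pow_succ]
      omega
    have hi3 : i₀ ≤ i := by
      have := (Nat.le_log_iff_pow_le (by norm_num) (by omega : M ≠ 0)).2 hc
      omega
    have h1 := hscale i hi3 M hi1 ξ
    have h2 : ((2 ^ i : ℕ) : ℝ) ≤ 2 * M := by exact_mod_cast hi2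
    calc ‖W k M t ξ‖ ≤ 3 * (2 + 1 / η) * ((2 ^ i : ℕ) : ℝ) ^ (1 - 1 / (k : ℝ) + ε) := h1
      _ ≤ 3 * (2 + 1 / η) * (2 * M) ^ (1 - 1 / (k : ℝ) + ε) := by
          apply mul_le_mul_of_nonneg_left _ (by positivity)
          exact Real.rpow_le_rpow (by positivity) h2 hexp
      _ = 3 * (2 + 1 / η) * 2 ^ (1 - 1 / (k : ℝ) + ε) * (M : ℝ) ^ (1 - 1 / (k : ℝ) + ε) := by
          rw [Real.mul_rpow (by norm_num) hM0.le]
          ring
      _ ≤ (2 ^ i₀ + 3 * (2 + 1 / η) * 2 ^ (1 - 1 / (k : ℝ) + ε)) *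
            (M : ℝ) ^ (1 - 1 / (k : ℝ) + ε) := by
          apply mul_le_mul_of_nonneg_right _ (by positivity)
          have : (0 : ℝ) ≤ 2 ^ i₀ := by positivity
          linarith

theorem dim_general (k : ℕ) (hk : 3 ≤ k) (p : ℕ) (hp : 1 ≤ p) (a : ℝ)
    (hbad : ∀ δ : ℝ, 0 < δ → ∃ C : ℝ, 0 ≤ C ∧ ∀ N : ℕ, 1 ≤ N → ∀ B : ℝ, 0 ≤ B →
      ((bad k N (4 * N ^ k) B).card : ℝ) * B ^ p ≤ C * (4 * (N : ℝ) ^ k) * (N : ℝ) ^ (a + δ))
    (ε : ℝ) (hε : 0 ≤ ε) :
    dimH (Exc k ε) ≤ ENNReal.ofReal (1 - (p - a - p / (k : ℝ) + p * ε) / k) := by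
  classical
  have hk0 : (0 : ℝ) < k := by exact_mod_cast (by omega : 0 < k)
  have hp0 : (0 : ℝ) < p := by exact_mod_cast (by omega : 0 < p)
  set d₀ : ℝ := 1 - (p - a - p / (k : ℝ) + p * ε) / k with hd₀
  apply le_of_forall_gt_imp_ge_of_dense
  intro D hD
  rcases eq_or_ne D ∞ with hDt | hDt
  · rw [hDt]; exact le_top
  lift D to ℝ≥0 using hDt
  have hD0 : (0 : ℝ) < D := by
    have h1 : (0 : ℝ≥0∞) < D := lt_of_le_of_lt zero_le hD
    exact_mod_cast h1
  have hDd : d₀ < D := by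
    rcases le_or_gt d₀ 0 with h | h
    · linarith
    · rw [ENNReal.ofReal_lt_iff_lt_toReal h.le (by simp)] at hD
      simpa using hD
  -- choose the parameters
  set g : ℝ := k * (D - d₀) / 4 with hg
  have hg0 : 0 < g := by
    rw [hg]
    have : 0 < (D : ℝ) - d₀ := by linarith
    positivity
  set η : ℝ := g / p with hη
  have hη0 : 0 < η := by positivity
  obtain ⟨C, hC0, hC⟩ := hbad g hg0
  -- the sets
  set Nn : ℕ → ℕ := fun i => 2 ^ i with hNn
  set Rn : ℕ → ℕ := fun i => 4 * (2 ^ i) ^ k with hRn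
  set Bn : ℕ → ℝ := fun i => ((2 ^ i : ℕ) : ℝ) ^ (1 - 1 / (k : ℝ) + ε - η) with hBn
  have hRpos : ∀ i, (0 : ℝ) < (Rn i : ℝ) := by
    intro i
    have : 0 < Rn i := by simp only [hRn]; positivity
    exact_mod_cast this
  have hcov : ∀ m : ℤ, dimH (Exc k ε ∩ Set.Ico (m : ℝ) (m + 1)) ≤ D := by
    intro m
    apply dimH_le_of_hausdorffMeasure_ne_top
    set T : ∀ _n : ℕ, (ℕ × ℕ) → Set ℝ := fun n q =>
      if n ≤ q.1 ∧ q.2 ∈ bad k (2 ^ q.1) (4 * (2 ^ q.1) ^ k) (Bn q.1) then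
        Metric.closedBall ((m : ℝ) + (q.2 : ℝ) / (Rn q.1 : ℝ)) (1 / (Rn q.1 : ℝ)) else ∅ with hT
    have hdiam : ∀ n q, Metric.ediam (T n q) ≤
        if n ≤ q.1 ∧ q.2 ∈ bad k (2 ^ q.1) (4 * (2 ^ q.1) ^ k) (Bn q.1) then
          ENNReal.ofReal (2 / (Rn q.1 : ℝ)) else 0 := by
      intro n q
      simp only [hT]
      split_ifs with h
      · rw [Real.closedBall_eq_Icc, Real.ediam_Icc]
        apply le_of_eq
        congr 1
        ring
      · simp
    have hmeas := Measure.hausdorffMeasure_le_liminf_tsum (X := ℝ) (β := ℕ) (ι := fun _ => ℕ × ℕ)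
      (D : ℝ) (Exc k ε ∩ Set.Ico (m : ℝ) (m + 1)) (l := atTop)
      (fun n => ENNReal.ofReal (2 / (Rn n : ℝ))) (by
        rw [← ENNReal.ofReal_zero]
        apply ENNReal.tendsto_ofReal
        have h1 : ∀ n, 2 / (Rn n : ℝ) ≤ (1 / 2 : ℝ) ^ n := by
          intro n
          simp only [hRn]
          push_cast
          rw [one_div, inv_pow, ← one_div, div_le_div_iff₀ (by positivity) (by positivity), one_mul]
          have h2 : (2 : ℝ) ^ n ≤ (2 ^ n) ^ k := by
            calc (2 : ℝ) ^ n = (2 ^ n) ^ 1 := (pow_one _).symm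
              _ ≤ (2 ^ n) ^ k := pow_le_pow_right₀ (one_le_pow₀ (by norm_num)) (by omega)
          have h3 : (0 : ℝ) < (2 ^ n) ^ k := by positivity
          linarith
        apply squeeze_zero (fun n => by have := hRpos n; positivity) h1
        exact tendsto_pow_atTop_nhds_zero_of_lt_one (by norm_num) (by norm_num)) T (by
        apply Filter.Eventually.of_forall
        intro n q
        refine (hdiam n q).trans ?_
        split_ifs with h
        · apply ENNReal.ofReal_le_ofReal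
          apply div_le_div_of_nonneg_left (by norm_num) (hRpos n)
          simp only [hRn]
          have : (2 : ℕ) ^ n ≤ 2 ^ q.1 := Nat.pow_le_pow_right (by norm_num) h.1
          have h3 : 4 * ((2 : ℕ) ^ n) ^ k ≤ 4 * (2 ^ q.1) ^ k :=
            Nat.mul_le_mul_left _ (Nat.pow_le_pow_left this k)
          exact_mod_cast h3
        · exact zero_le) (by
        apply Filter.Eventually.of_forall
        intro n t ht
        by_contra hcon
        refine not_mem_Exc k hk ε η hε hη0 m n t ht.2 ?_ ht.1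
        intro i hi r hr hclose
        apply hcon
        rw [Set.mem_iUnion]
        refine ⟨(i, r), ?_⟩
        simp only [hT]
        rw [if_pos ⟨hi, hr⟩, Metric.mem_closedBall, Real.dist_eq]
        exact hclose)
    -- the tsum is bounded
    set E : ℝ := -(2 * g) with hE
    have hcount : ∀ i, (((bad k (2 ^ i) (4 * (2 ^ i) ^ k) (Bn i)).card : ℝ)) *
        (2 / (Rn i : ℝ)) ^ (D : ℝ) ≤ 4 * C * ((2 : ℝ) ^ E) ^ i := by
      intro i
      have hN1 : 1 ≤ (2 : ℕ) ^ i := Nat.one_le_two_pow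
      have h1 := hC (2 ^ i) hN1 (Bn i) (by simp only [hBn]; positivity)
      set N : ℝ := ((2 ^ i : ℕ) : ℝ) with hN
      have hN0 : (0 : ℝ) < N := by rw [hN]; positivity
      have hN1' : (1 : ℝ) ≤ N := by rw [hN]; exact_mod_cast hN1
      have hBp : (Bn i) ^ p = N ^ (p * (1 - 1 / (k : ℝ) + ε - η)) := by
        simp only [hBn]
        rw [← Real.rpow_natCast, ← Real.rpow_mul hN0.le]
        congr 1
        ring
      have hBp0 : 0 < (Bn i) ^ p := by rw [hBp]; positivity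
      have h2 : ((bad k (2 ^ i) (4 * (2 ^ i) ^ k) (Bn i)).card : ℝ) ≤
          C * (4 * N ^ k) * N ^ (a + g) / (Bn i) ^ p := by
        rw [le_div_iff₀ hBp0]
        exact h1
      have h3 : (2 / (Rn i : ℝ)) ^ (D : ℝ) ≤ (N ^ k)⁻¹ ^ (D : ℝ) := by
        apply Real.rpow_le_rpow (by have := hRpos i; positivity) _ (NNReal.coe_nonneg D)
        simp only [hRn]
        push_cast
        have e : ((2 : ℝ) ^ i) = N := by rw [hN]; push_cast; rfl
        rw [e, inv_eq_one_div, div_le_div_iff₀ (by positivity) (by positivity)]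
        nlinarith [pow_pos hN0 k]
      have h4 : (N ^ k)⁻¹ ^ (D : ℝ) = N ^ (-(k * (D : ℝ))) := by
        rw [← Real.rpow_natCast, ← Real.rpow_neg hN0.le, ← Real.rpow_mul hN0.le]
        congr 1
        ring
      have h5 : N ^ k = N ^ (k : ℝ) := (Real.rpow_natCast _ _).symm
      calc (((bad k (2 ^ i) (4 * (2 ^ i) ^ k) (Bn i)).card : ℝ)) * (2 / (Rn i : ℝ)) ^ (D : ℝ)
          ≤ (C * (4 * N ^ k) * N ^ (a + g) / (Bn i) ^ p) * (N ^ k)⁻¹ ^ (D : ℝ) :=
            mul_le_mul h2 h3 (by have := hRpos i; positivity) (by positivity)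
        _ = 4 * C * (N ^ (k : ℝ) * N ^ (a + g) * N ^ (-(p * (1 - 1 / (k : ℝ) + ε - η))) *
              N ^ (-(k * (D : ℝ)))) := by
            rw [h4, hBp, Real.rpow_neg hN0.le (p * (1 - 1 / (k : ℝ) + ε - η)), ← h5]
            ring
        _ = 4 * C * N ^ E := by
            rw [← Real.rpow_add hN0, ← Real.rpow_add hN0, ← Real.rpow_add hN0]
            congr 2
            rw [hE, hη, hg, hd₀]
            field_simp
            ring
        _ = 4 * C * ((2 : ℝ) ^ E) ^ i := by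
            congr 1
            rw [hN]
            push_cast
            rw [← Real.rpow_natCast, ← Real.rpow_natCast, ← Real.rpow_mul (by norm_num),
              ← Real.rpow_mul (by norm_num), mul_comm]
    have hρ : (2 : ℝ) ^ E < 1 := Real.rpow_lt_one_of_one_lt_of_neg (by norm_num) (by linarith)
    have hρ0 : 0 ≤ (2 : ℝ) ^ E := by positivity
    have hsum : Summable (fun i : ℕ => 4 * C * ((2 : ℝ) ^ E) ^ i) :=
      (summable_geometric_of_lt_one hρ0 hρ).mul_left _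
    have hbound : ∀ n : ℕ, ∑' q : ℕ × ℕ, Metric.ediam (T n q) ^ (D : ℝ) ≤
        ∑' i : ℕ, ENNReal.ofReal (4 * C * ((2 : ℝ) ^ E) ^ i) := by
      intro n
      rw [show (∑' q : ℕ × ℕ, Metric.ediam (T n q) ^ (D : ℝ)) =
        ∑' (i : ℕ) (r : ℕ), Metric.ediam (T n (i, r)) ^ (D : ℝ) from
        ENNReal.tsum_prod (f := fun i r => Metric.ediam (T n (i, r)) ^ (D : ℝ))]
      apply ENNReal.tsum_le_tsum
      intro i
      calc ∑' r : ℕ, Metric.ediam (T n (i, r)) ^ (D : ℝ)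
          ≤ ∑' r : ℕ, (if r ∈ bad k (2 ^ i) (4 * (2 ^ i) ^ k) (Bn i) then
              ENNReal.ofReal ((2 / (Rn i : ℝ)) ^ (D : ℝ)) else 0) := by
            apply ENNReal.tsum_le_tsum
            intro r
            refine (ENNReal.rpow_le_rpow (hdiam n (i, r)) (NNReal.coe_nonneg D)).trans ?_
            by_cases h1 : r ∈ bad k (2 ^ i) (4 * (2 ^ i) ^ k) (Bn i)
            · by_cases h2 : n ≤ i
              · simp only [h1, h2, and_self, if_true]
                rw [ENNReal.ofReal_rpow_of_nonneg (by have := hRpos i; positivity) (NNReal.coe_nonneg D)]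
              · simp only [h2, false_and, if_false]
                rw [ENNReal.zero_rpow_of_pos hD0]
                exact zero_le
            · simp only [h1, and_false, if_false]
              rw [ENNReal.zero_rpow_of_pos hD0]
        _ = ∑ r ∈ bad k (2 ^ i) (4 * (2 ^ i) ^ k) (Bn i),
              ENNReal.ofReal ((2 / (Rn i : ℝ)) ^ (D : ℝ)) := by
            rw [tsum_eq_sum (s := bad k (2 ^ i) (4 * (2 ^ i) ^ k) (Bn i))]
            · apply Finset.sum_congr rfl
              intro r hr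
              rw [if_pos hr]
            · intro r hr
              rw [if_neg hr]
        _ = ENNReal.ofReal (((bad k (2 ^ i) (4 * (2 ^ i) ^ k) (Bn i)).card : ℝ) *
              (2 / (Rn i : ℝ)) ^ (D : ℝ)) := by
            rw [Finset.sum_const, nsmul_eq_mul, ENNReal.ofReal_mul (by positivity),
              ENNReal.ofReal_natCast]
        _ ≤ ENNReal.ofReal (4 * C * ((2 : ℝ) ^ E) ^ i) := ENNReal.ofReal_le_ofReal (hcount i)
    have hfin : ∑' i : ℕ, ENNReal.ofReal (4 * C * ((2 : ℝ) ^ E) ^ i) ≠ ∞ := by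
      rw [← ENNReal.ofReal_tsum_of_nonneg (fun i => by positivity) hsum]
      exact ENNReal.ofReal_ne_top
    refine ne_top_of_le_ne_top hfin (hmeas.trans ?_)
    refine (liminf_le_liminf (v := fun _ => ∑' i : ℕ, ENNReal.ofReal (4 * C * ((2 : ℝ) ^ E) ^ i))
      (Filter.Eventually.of_forall hbound)).trans ?_
    simp
  have hU : Exc k ε = ⋃ m : ℤ, (Exc k ε ∩ Set.Ico (m : ℝ) (m + 1)) := by
    rw [← Set.inter_iUnion]
    have : (⋃ m : ℤ, Set.Ico (m : ℝ) (m + 1)) = Set.univ := iUnion_Ico_intCast ℝ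
    rw [this, Set.inter_univ]
  rw [hU, dimH_iUnion]
  exact iSup_le hcov

end Pool.Agent.Helper69_Weyl
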