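import Pool.Agent.Helper69_Weyl.Moments
import Pool.Agent.Helper69_Weyl.Divisor

set_option autoImplicit false

/-! Counting solutions of the equations behind the moments. -/

namespace Pool.Agent.Helper69_Weyl

open Finset

theorem ps_bounds {k s N : ℕ} {x : Fin s → ℕ} (hx : x ∈ Tup s N) :
    (s : ℤ) ≤ ps k x ∧ ps k x ≤ s * (N : ℤ) ^ k := by
  rw [mem_Tup] at hx
  unfold ps
  constructor
  · calc (s : ℤ) = ∑ _i : Fin s, (1 : ℤ) := by simp
      _ ≤ ∑ i, ((x i : ℤ)) ^ k := by
        apply Finset.sum_le_sum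
        intro i _
        have h1 : (1 : ℤ) ≤ x i := by exact_mod_cast (hx i).1
        exact one_le_pow₀ h1
  · have h2 : ∑ i, ((x i : ℤ)) ^ k ≤ ∑ _i : Fin s, (N : ℤ) ^ k := by
      apply Finset.sum_le_sum
      intro i _
      have h1 : (x i : ℤ) ≤ N := by exact_mod_cast (hx i).2
      exact pow_le_pow_left₀ (by positivity) h1 k
    refine h2.trans (le_of_eq ?_)
    simp

theorem eq_of_dvd {k s N R : ℕ} (hs : 0 < s) {x y : Fin s → ℕ} (hx : x ∈ Tup s N)
    (hy : y ∈ Tup s N) (hR : s * N ^ k ≤ R) (h : (R : ℤ) ∣ ps k x - ps k y) :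
    ps k x = ps k y := by
  have h1 := ps_bounds (k := k) hx
  have h2 := ps_bounds (k := k) hy
  have h3 : (s : ℤ) * (N : ℤ) ^ k ≤ R := by exact_mod_cast hR
  have hs' : (0 : ℤ) < s := by exact_mod_cast hs
  have h4 : |ps k x - ps k y| < R := by
    rw [abs_lt]
    constructor <;> linarith
  have := Int.eq_zero_of_abs_lt_dvd h h4
  linarith

theorem pow_add_pow_lt (k : ℕ) (hk : 2 ≤ k) (a b : ℤ) (ha : 0 < a) (hb : 0 < b) :
    a ^ k + b ^ k < (a + b) ^ k := by
  obtain ⟨m, rfl⟩ : ∃ m, k = m + 1 := ⟨k - 1, by omega⟩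
  have h1 : a ^ m + b ^ m ≤ (a + b) ^ m := pow_add_pow_le ha.le hb.le (by omega)
  have ha' : 0 < a ^ m := by positivity
  have hb' : 0 < b ^ m := by positivity
  calc a ^ (m + 1) + b ^ (m + 1) = a * a ^ m + b * b ^ m := by ring
    _ < (a + b) * (a ^ m + b ^ m) := by nlinarith
    _ ≤ (a + b) * (a + b) ^ m := mul_le_mul_of_nonneg_left h1 (by linarith)
    _ = (a + b) ^ (m + 1) := by ring

/-- Number of solutions of the system of degrees `1`, `k` (`k` odd) in six variables. -/
theorem count_three (k : ℕ) (hk : 3 ≤ k) (hodd : Odd k) (δ : ℝ) (hδ : 0 < δ) :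
    ∃ C : ℝ, 0 ≤ C ∧ ∀ N : ℕ, 1 ≤ N → ∀ R Q : ℕ, 3 * N ^ k ≤ R → 3 * N ≤ Q →
      ((((Tup 3 N ×ˢ Tup 3 N).filter (fun p => (R : ℤ) ∣ ps k p.1 - ps k p.2 ∧
        (Q : ℤ) ∣ ps 1 p.1 - ps 1 p.2)).card : ℕ) : ℝ) ≤ C * (N : ℝ) ^ (3 + δ) := by
  classical
  have hk0 : (0 : ℝ) < k := by exact_mod_cast (by omega : 0 < k)
  obtain ⟨C, hC1, hC⟩ := exists_card_divisors_le (δ / (2 * k)) (by positivity)
  refine ⟨C ^ 2 * 3 ^ δ, by positivity, ?_⟩
  intro N hN R Q hR hQ
  have hN1 : (1 : ℝ) ≤ N := by exact_mod_cast hN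
  set B : ℝ := C ^ 2 * (3 ^ δ * (N : ℝ) ^ δ) with hB
  have hB0 : 0 ≤ B := by positivity
  set F := (Tup 3 N ×ˢ Tup 3 N).filter (fun p => (R : ℤ) ∣ ps k p.1 - ps k p.2 ∧
        (Q : ℤ) ∣ ps 1 p.1 - ps 1 p.2) with hF
  have hmain : F.card ≤ ⌊B⌋₊ * (Tup 3 N).card := by
    apply Finset.card_le_mul_card_image_of_maps_to (f := fun p => p.1)
    · intro p hp
      exact (Finset.mem_product.1 (Finset.mem_filter.1 hp).1).1
    · intro x hx
      apply Nat.le_floor
      -- the fibre
      set V : ℕ := ((ps 1 x) ^ k - ps k x).natAbs with hV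
      have hVne : V ≠ 0 := by
        rw [hV, Int.natAbs_ne_zero]
        have h1 := (mem_Tup.1 hx)
        have a0 : (0 : ℤ) < x 0 := by exact_mod_cast (h1 0).1
        have a1 : (0 : ℤ) < x 1 := by exact_mod_cast (h1 1).1
        have a2 : (0 : ℤ) < x 2 := by exact_mod_cast (h1 2).1
        have e1 : ps 1 x = ((x 0 : ℤ) + x 1) + x 2 := by
          simp [ps, Fin.sum_univ_three]
        have e2 : ps k x = ((x 0 : ℤ) ^ k + (x 1 : ℤ) ^ k) + (x 2 : ℤ) ^ k := by
          simp [ps, Fin.sum_univ_three]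
        have h2 := pow_add_pow_lt k (by omega) _ _ (add_pos a0 a1) a2
        have h3 := pow_add_pow_lt k (by omega) _ _ a0 a1
        rw [e1, e2]
        intro h4
        linarith
      have hcard : (F.filter (fun a => a.1 = x)).card ≤
          (V.divisors ×ˢ V.divisors).card := by
        apply Finset.card_le_card_of_injOn (fun p => (p.2 0 + p.2 1, p.2 1 + p.2 2))
        · intro p hp
          rw [Finset.mem_coe, Finset.mem_filter, hF, Finset.mem_filter, Finset.mem_product] at hp
          obtain ⟨⟨⟨hp1, hp2⟩, hd1, hd2⟩, hpx⟩ := hp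
          have e1 := eq_of_dvd (by norm_num) hp1 hp2 hR hd1
          have e2 := eq_of_dvd (k := 1) (by norm_num) hp1 hp2 (by simpa using hQ) hd2
          rw [hpx] at e1 e2
          have s1 : ps 1 p.2 = ((p.2 0 : ℤ) + p.2 1) + p.2 2 := by
            simp [ps, Fin.sum_univ_three]
          have s2 : ps k p.2 = ((p.2 0 : ℤ) ^ k + (p.2 1 : ℤ) ^ k) + (p.2 2 : ℤ) ^ k := by
            simp [ps, Fin.sum_univ_three]
          rw [Finset.mem_coe, Finset.mem_product, Nat.mem_divisors, Nat.mem_divisors]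
          refine ⟨⟨?_, hVne⟩, ⟨?_, hVne⟩⟩
          · rw [← Int.natCast_dvd_natCast, hV, Int.dvd_natAbs, e1, e2, s1, s2]
            push_cast
            have d1 : ((p.2 0 : ℤ) + p.2 1) ∣ ((p.2 0 : ℤ) ^ k + (p.2 1 : ℤ) ^ k) :=
              hodd.add_dvd_pow_add_pow _ _
            have d2 : ((p.2 0 : ℤ) + p.2 1) ∣
                (((p.2 0 : ℤ) + p.2 1) + p.2 2) ^ k - (p.2 2 : ℤ) ^ k := by
              have := sub_dvd_pow_sub_pow (((p.2 0 : ℤ) + p.2 1) + p.2 2) (p.2 2 : ℤ) k
              rwa [add_sub_cancel_right] at this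
            have e5 : (((p.2 0 : ℤ) + p.2 1) + p.2 2) ^ k -
                (((p.2 0 : ℤ) ^ k + (p.2 1 : ℤ) ^ k) + (p.2 2 : ℤ) ^ k) =
                (((p.2 0 : ℤ) + p.2 1) + p.2 2) ^ k - (p.2 2 : ℤ) ^ k -
                ((p.2 0 : ℤ) ^ k + (p.2 1 : ℤ) ^ k) := by ring
            rw [e5]
            exact dvd_sub d2 d1
          · rw [← Int.natCast_dvd_natCast, hV, Int.dvd_natAbs, e1, e2, s1, s2]
            push_cast
            have d1 : ((p.2 1 : ℤ) + p.2 2) ∣ ((p.2 1 : ℤ) ^ k + (p.2 2 : ℤ) ^ k) :=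
              hodd.add_dvd_pow_add_pow _ _
            have d2 : ((p.2 1 : ℤ) + p.2 2) ∣
                (((p.2 0 : ℤ) + p.2 1) + p.2 2) ^ k - (p.2 0 : ℤ) ^ k := by
              have := sub_dvd_pow_sub_pow (((p.2 0 : ℤ) + p.2 1) + p.2 2) (p.2 0 : ℤ) k
              have e : ((p.2 0 : ℤ) + p.2 1) + p.2 2 - p.2 0 = (p.2 1 : ℤ) + p.2 2 := by ring
              rwa [e] at this
            have e5 : (((p.2 0 : ℤ) + p.2 1) + p.2 2) ^ k -
                (((p.2 0 : ℤ) ^ k + (p.2 1 : ℤ) ^ k) + (p.2 2 : ℤ) ^ k) =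
                (((p.2 0 : ℤ) + p.2 1) + p.2 2) ^ k - (p.2 0 : ℤ) ^ k -
                ((p.2 1 : ℤ) ^ k + (p.2 2 : ℤ) ^ k) := by ring
            rw [e5]
            exact dvd_sub d2 d1
        · intro p hp q hq hpq
          rw [Finset.mem_coe, Finset.mem_filter, hF, Finset.mem_filter, Finset.mem_product] at hp hq
          obtain ⟨⟨⟨hp1, hp2⟩, hd1, hd2⟩, hpx⟩ := hp
          obtain ⟨⟨⟨hq1, hq2⟩, hd1', hd2'⟩, hqx⟩ := hq
          have e2 := eq_of_dvd (k := 1) (by norm_num) hp1 hp2 (by simpa using hQ) hd2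
          have e2' := eq_of_dvd (k := 1) (by norm_num) hq1 hq2 (by simpa using hQ) hd2'
          rw [hpx] at e2
          rw [hqx] at e2'
          have s1 : ps 1 p.2 = ((p.2 0 : ℤ) + p.2 1) + p.2 2 := by
            simp [ps, Fin.sum_univ_three]
          have s1' : ps 1 q.2 = ((q.2 0 : ℤ) + q.2 1) + q.2 2 := by
            simp [ps, Fin.sum_univ_three]
          rw [s1] at e2
          rw [s1'] at e2'
          simp only [Prod.mk.injEq] at hpq
          obtain ⟨h1, h2⟩ := hpq
          apply Prod.ext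
          · rw [hpx, hqx]
          · funext i
            fin_cases i
            · show p.2 0 = q.2 0
              omega
            · show p.2 1 = q.2 1
              omega
            · show p.2 2 = q.2 2
              omega
      rw [Finset.card_product] at hcard
      have hVle : (V : ℝ) ≤ (3 * (N : ℝ)) ^ k := by
        have h5 := ps_bounds (k := 1) hx
        have h6 := ps_bounds (k := k) hx
        have h7 : ((V : ℕ) : ℤ) ≤ (3 * (N : ℤ)) ^ k := by
          rw [hV, Int.natCast_natAbs]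
          have h8 : (ps 1 x) ^ k ≤ (3 * (N : ℤ)) ^ k := by
            apply pow_le_pow_left₀
            · push_cast at h5; linarith [h5.1]
            · simpa using h5.2
          have h9 : ps k x ≤ (3 * (N : ℤ)) ^ k := by
            refine h6.2.trans ?_
            rw [mul_pow]
            apply mul_le_mul_of_nonneg_right _ (by positivity)
            push_cast
            calc (3 : ℤ) = 3 ^ 1 := by norm_num
              _ ≤ 3 ^ k := pow_le_pow_right₀ (by norm_num) (by omega)
          have h10 : 0 ≤ (ps 1 x) ^ k := by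
            apply pow_nonneg
            push_cast at h5
            linarith [h5.1]
          have h11 : 0 ≤ ps k x := by
            push_cast at h6
            linarith [h6.1]
          rw [abs_le]
          constructor <;> linarith
        exact_mod_cast h7
      have hd : ((V.divisors.card : ℕ) : ℝ) ≤ C * ((3 * (N : ℝ)) ^ k) ^ (δ / (2 * k)) := by
        refine (hC V hVne).trans ?_
        apply mul_le_mul_of_nonneg_left _ (by linarith)
        exact Real.rpow_le_rpow (by positivity) hVle (by positivity)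
      calc (((F.filter (fun a => a.1 = x)).card : ℕ) : ℝ)
          ≤ (V.divisors.card : ℝ) * V.divisors.card := by exact_mod_cast hcard
        _ ≤ (C * ((3 * (N : ℝ)) ^ k) ^ (δ / (2 * k))) * (C * ((3 * (N : ℝ)) ^ k) ^ (δ / (2 * k))) :=
            mul_le_mul hd hd (by positivity) (by positivity)
        _ = B := by
            have e3 : ((3 * (N : ℝ)) ^ k) ^ (δ / (2 * k)) * ((3 * (N : ℝ)) ^ k) ^ (δ / (2 * k))
                = 3 ^ δ * (N : ℝ) ^ δ := by
              rw [← Real.rpow_add (by positivity), ← Real.rpow_natCast,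
                ← Real.rpow_mul (by positivity), Real.mul_rpow (by norm_num) (by positivity)]
              have e4 : (k : ℝ) * (δ / (2 * k) + δ / (2 * k)) = δ := by
                field_simp
                ring
              rw [e4]
            rw [hB, ← e3]
            ring
  rw [card_Tup] at hmain
  calc ((F.card : ℕ) : ℝ) ≤ ((⌊B⌋₊ * N ^ 3 : ℕ) : ℝ) := by
        exact_mod_cast hmain
    _ ≤ B * (N : ℝ) ^ 3 := by
        push_cast
        exact mul_le_mul_of_nonneg_right (Nat.floor_le hB0) (by positivity)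
    _ = C ^ 2 * 3 ^ δ * (N : ℝ) ^ (3 + δ) := by
        rw [hB, Real.rpow_add (by positivity)]
        have : (N : ℝ) ^ (3 : ℝ) = (N : ℝ) ^ 3 := by
          rw [← Real.rpow_natCast]
          norm_num
        rw [this]
        ring

end Pool.Agent.Helper69_Weyl
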