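import Pool.Agent.Helper69_Weyl.Count

set_option autoImplicit false

/-! Counting solutions for the mixed eighth moment. -/

namespace Pool.Agent.Helper69_Weyl

open Finset

theorem ps_two (k : ℕ) (x : Fin 2 → ℕ) : ps k x = (x 0 : ℤ) ^ k + (x 1 : ℤ) ^ k := by
  simp [ps, Fin.sum_univ_two]

theorem convex_step (k : ℕ) (hk : 2 ≤ k) (s t d : ℤ) (hs : 0 ≤ s) (hst : s < t) (hd : 0 < d) :
    (s + d) ^ k - s ^ k < (t + d) ^ k - t ^ k := by
  have gen : ∀ m : ℕ, 1 ≤ m → (s + d) ^ m - s ^ m ≤ (t + d) ^ m - t ^ m := by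
    intro m hm
    induction m with
    | zero => omega
    | succ m ih =>
      rcases Nat.eq_zero_or_pos m with h | h
      · subst h; simp
      · have h1 := ih h
        have h2 : s ^ m ≤ t ^ m := pow_le_pow_left₀ hs hst.le m
        have h3 : 0 ≤ (s + d) ^ m - s ^ m := by
          have := pow_le_pow_left₀ hs (by linarith : s ≤ s + d) m
          linarith
        calc (s + d) ^ (m + 1) - s ^ (m + 1) = (s + d) * ((s + d) ^ m - s ^ m) + d * s ^ m := by ring
          _ ≤ (t + d) * ((s + d) ^ m - s ^ m) + d * t ^ m := by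
            apply add_le_add
            · exact mul_le_mul_of_nonneg_right (by linarith) h3
            · exact mul_le_mul_of_nonneg_left h2 hd.le
          _ ≤ (t + d) * ((t + d) ^ m - t ^ m) + d * t ^ m := by
            have : (t + d) * ((s + d) ^ m - s ^ m) ≤ (t + d) * ((t + d) ^ m - t ^ m) :=
              mul_le_mul_of_nonneg_left h1 (by linarith)
            linarith
          _ = (t + d) ^ (m + 1) - t ^ (m + 1) := by ring
  obtain ⟨m, rfl⟩ : ∃ m, k = m + 1 := ⟨k - 1, by omega⟩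
  have h1 := gen m (by omega)
  have h2 : s ^ m < t ^ m := pow_lt_pow_left₀ hst hs (by omega)
  have h3 : 0 ≤ (s + d) ^ m - s ^ m := by
    have := pow_le_pow_left₀ hs (by linarith : s ≤ s + d) m
    linarith
  calc (s + d) ^ (m + 1) - s ^ (m + 1) = (s + d) * ((s + d) ^ m - s ^ m) + d * s ^ m := by ring
    _ < (t + d) * ((s + d) ^ m - s ^ m) + d * t ^ m := by
      apply add_lt_add_of_le_of_lt
      · exact mul_le_mul_of_nonneg_right (by linarith) h3
      · exact mul_lt_mul_of_pos_left h2 hd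
    _ ≤ (t + d) * ((t + d) ^ m - t ^ m) + d * t ^ m := by
      have : (t + d) * ((s + d) ^ m - s ^ m) ≤ (t + d) * ((t + d) ^ m - t ^ m) :=
        mul_le_mul_of_nonneg_left h1 (by linarith)
      linarith
    _ = (t + d) ^ (m + 1) - t ^ (m + 1) := by ring

/-- two pairs with the same sum and the same sum of `k`-th powers agree up to order -/
theorem pair_eq (k : ℕ) (hk : 2 ≤ k) (a b c d : ℤ) (ha : 0 ≤ a) (hb : 0 ≤ b) (hc : 0 ≤ c)
    (hd : 0 ≤ d) (h1 : a + b = c + d) (h2 : a ^ k + b ^ k = c ^ k + d ^ k) :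
    (a = c ∧ b = d) ∨ (a = d ∧ b = c) := by
  -- key: the largest element is the same
  have key : ∀ a b c d : ℤ, 0 ≤ a → 0 ≤ b → 0 ≤ c → 0 ≤ d → a + b = c + d →
      a ^ k + b ^ k = c ^ k + d ^ k → b ≤ a → d ≤ c → ¬ c < a := by
    intro a b c d ha hb hc hd h1 h2 hba hdc hlt
    -- a > c ≥ d > b, a - c = d - b
    have h3 := convex_step k hk b c (a - c) hb (by linarith) (by linarith)
    have e1 : b + (a - c) = d := by linarith
    have e2 : c + (a - c) = a := by ring
    rw [e1, e2] at h3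
    linarith
  rcases le_total b a with hba | hba <;> rcases le_total d c with hdc | hdc
  · left
    have k1 := key a b c d ha hb hc hd h1 h2 hba hdc
    have k2 := key c d a b hc hd ha hb h1.symm h2.symm hdc hba
    constructor <;> omega
  · right
    have k1 := key a b d c ha hb hd hc (by linarith) (by linarith) hba hdc
    have k2 := key d c a b hd hc ha hb (by linarith) (by linarith) hdc hba
    constructor <;> omega
  · right
    have k1 := key b a c d hb ha hc hd (by linarith) (by linarith) hba hdc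
    have k2 := key c d b a hc hd hb ha (by linarith) (by linarith) hdc hba
    constructor <;> omega
  · left
    have k1 := key b a d c hb ha hd hc (by linarith) (by linarith) hba hdc
    have k2 := key d c b a hd hc hb ha (by linarith) (by linarith) hdc hba
    constructor <;> omega

/-- signed divisors -/
def sdiv (v : ℕ) : Finset ℤ :=
  v.divisors.image (fun d : ℕ => (d : ℤ)) ∪ v.divisors.image (fun d : ℕ => -(d : ℤ))

theorem card_sdiv (v : ℕ) : (sdiv v).card ≤ 2 * v.divisors.card := by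
  unfold sdiv
  refine (Finset.card_union_le _ _).trans ?_
  have h1 := Finset.card_image_le (s := v.divisors) (f := fun d : ℕ => (d : ℤ))
  have h2 := Finset.card_image_le (s := v.divisors) (f := fun d : ℕ => -(d : ℤ))
  omega

theorem mem_sdiv {v : ℤ} (hv : v ≠ 0) {g : ℤ} (h : g ∣ v) : g ∈ sdiv v.natAbs := by
  unfold sdiv
  rw [Finset.mem_union, Finset.mem_image, Finset.mem_image]
  have h1 : g.natAbs ∈ v.natAbs.divisors := by
    rw [Nat.mem_divisors]
    exact ⟨Int.natAbs_dvd_natAbs.2 h, Int.natAbs_ne_zero.2 hv⟩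
  rcases le_total 0 g with h2 | h2
  · left
    exact ⟨g.natAbs, h1, by omega⟩
  · right
    exact ⟨g.natAbs, h1, by omega⟩

/-- the pairs of pairs with equal sums -/
def PP (N Q : ℕ) : Finset ((Fin 2 → ℕ) × (Fin 2 → ℕ)) :=
  (Tup 2 N ×ˢ Tup 2 N).filter (fun p => (Q : ℤ) ∣ ps 1 p.1 - ps 1 p.2)

theorem mem_PP {N Q : ℕ} (hQ : 2 * N ≤ Q) {p : (Fin 2 → ℕ) × (Fin 2 → ℕ)} (hp : p ∈ PP N Q) :
    (1 ≤ p.1 0 ∧ p.1 0 ≤ N) ∧ (1 ≤ p.1 1 ∧ p.1 1 ≤ N) ∧ (1 ≤ p.2 0 ∧ p.2 0 ≤ N) ∧
      (1 ≤ p.2 1 ∧ p.2 1 ≤ N) ∧ p.1 0 + p.1 1 = p.2 0 + p.2 1 := by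
  unfold PP at hp
  rw [Finset.mem_filter, Finset.mem_product] at hp
  obtain ⟨⟨h1, h2⟩, h3⟩ := hp
  have h4 := eq_of_dvd (k := 1) (by norm_num) h1 h2 (by simpa using hQ) h3
  rw [ps_two, ps_two] at h4
  rw [mem_Tup] at h1 h2
  refine ⟨h1 0, h1 1, h2 0, h2 1, ?_⟩
  have h5 : ((p.1 0 + p.1 1 : ℕ) : ℤ) = ((p.2 0 + p.2 1 : ℕ) : ℤ) := by
    push_cast
    linarith
  exact_mod_cast h5

theorem card_PP {N Q : ℕ} (hQ : 2 * N ≤ Q) : (PP N Q).card ≤ N ^ 3 := by
  have h : (PP N Q).card ≤ ((Icc 1 N) ×ˢ ((Icc 1 N) ×ˢ (Icc 1 N))).card := by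
    apply Finset.card_le_card_of_injOn (fun p => (p.1 0, p.1 1, p.2 0))
    · intro p hp
      obtain ⟨h1, h2, h3, h4, h5⟩ := mem_PP hQ hp
      simp only [Finset.coe_product, Set.mem_prod, Finset.mem_coe, Finset.mem_Icc]
      exact ⟨h1, h2, h3⟩
    · intro p hp q hq hpq
      obtain ⟨h1, h2, h3, h4, h5⟩ := mem_PP hQ hp
      obtain ⟨g1, g2, g3, g4, g5⟩ := mem_PP hQ hq
      simp only [Prod.mk.injEq] at hpq
      obtain ⟨e1, e2, e3⟩ := hpq
      apply Prod.ext
      · funext i
        fin_cases i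
        · exact e1
        · exact e2
      · funext i
        fin_cases i
        · exact e3
        · show p.2 1 = q.2 1
          omega
  refine h.trans (le_of_eq ?_)
  rw [Finset.card_product, Finset.card_product, Nat.card_Icc]
  simp only [Nat.add_sub_cancel]
  ring

theorem card_zero {k N Q : ℕ} (hk : 2 ≤ k) (hQ : 2 * N ≤ Q) :
    ((PP N Q).filter (fun p => ps k p.1 - ps k p.2 = 0)).card ≤ 2 * N ^ 2 := by
  classical
  have h : ((PP N Q).filter (fun p => ps k p.1 - ps k p.2 = 0)).card ≤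
      ((Icc 1 N ×ˢ Icc 1 N) ×ˢ (Finset.univ : Finset Bool)).card := by
    apply Finset.card_le_card_of_injOn (fun p => ((p.1 0, p.1 1), decide (p.1 0 = p.2 0)))
    · intro p hp
      rw [Finset.mem_coe, Finset.mem_filter] at hp
      obtain ⟨h1, h2, h3, h4, h5⟩ := mem_PP hQ hp.1
      simp only [Finset.coe_product, Set.mem_prod, Finset.mem_coe, Finset.mem_Icc]
      exact ⟨⟨h1, h2⟩, Finset.mem_univ _⟩
    · intro p hp q hq hpq
      rw [Finset.mem_coe, Finset.mem_filter] at hp hq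
      obtain ⟨h1, h2, h3, h4, h5⟩ := mem_PP hQ hp.1
      obtain ⟨g1, g2, g3, g4, g5⟩ := mem_PP hQ hq.1
      have hp2 := hp.2
      have hq2 := hq.2
      rw [ps_two, ps_two] at hp2 hq2
      have k1 := pair_eq k hk (p.1 0) (p.1 1) (p.2 0) (p.2 1) (by positivity) (by positivity)
        (by positivity) (by positivity) (by exact_mod_cast h5) (by linarith)
      have k2 := pair_eq k hk (q.1 0) (q.1 1) (q.2 0) (q.2 1) (by positivity) (by positivity)
        (by positivity) (by positivity) (by exact_mod_cast g5) (by linarith)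
      simp only [Prod.mk.injEq, decide_eq_decide] at hpq
      obtain ⟨⟨e1, e2⟩, e3⟩ := hpq
      have f1 : p.2 0 = q.2 0 := by
        by_cases hc : p.1 0 = p.2 0
        · have := e3.1 hc
          omega
        · have hc' : ¬ q.1 0 = q.2 0 := fun h => hc (e3.2 h)
          have k1' : p.1 1 = p.2 0 := by
            rcases k1 with h | h
            · exact absurd (by exact_mod_cast h.1) hc
            · exact_mod_cast h.2
          have k2' : q.1 1 = q.2 0 := by
            rcases k2 with h | h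
            · exact absurd (by exact_mod_cast h.1) hc'
            · exact_mod_cast h.2
          omega
      apply Prod.ext
      · funext i
        fin_cases i
        · exact e1
        · exact e2
      · funext i
        fin_cases i
        · exact f1
        · show p.2 1 = q.2 1
          omega
  refine h.trans (le_of_eq ?_)
  rw [Finset.card_product, Finset.card_product, Nat.card_Icc]
  simp
  ring

theorem card_fibre {k N Q : ℕ} (hQ : 2 * N ≤ Q) (v : ℤ) (hv : v ≠ 0) :
    ((PP N Q).filter (fun p => ps k p.1 - ps k p.2 = v)).card ≤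
      4 * v.natAbs.divisors.card ^ 2 * N := by
  classical
  have h : ((PP N Q).filter (fun p => ps k p.1 - ps k p.2 = v)).card ≤
      ((sdiv v.natAbs ×ˢ sdiv v.natAbs) ×ˢ (Icc 1 N)).card := by
    apply Finset.card_le_card_of_injOn
      (fun p => (((p.1 0 : ℤ) - p.2 1, (p.1 0 : ℤ) - p.2 0), p.1 1))
    · intro p hp
      rw [Finset.mem_coe, Finset.mem_filter] at hp
      obtain ⟨h1, h2, h3, h4, h5⟩ := mem_PP hQ hp.1
      have h6 := hp.2
      rw [ps_two, ps_two] at h6
      have h5' : (p.1 0 : ℤ) + p.1 1 = p.2 0 + p.2 1 := by exact_mod_cast h5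
      simp only [Finset.coe_product, Set.mem_prod, Finset.mem_coe, Finset.mem_Icc]
      refine ⟨⟨?_, ?_⟩, h2⟩
      · apply mem_sdiv hv
        rw [← h6]
        have d1 := sub_dvd_pow_sub_pow (p.1 0 : ℤ) (p.2 1 : ℤ) k
        have d2 := sub_dvd_pow_sub_pow (p.2 0 : ℤ) (p.1 1 : ℤ) k
        have e : (p.2 0 : ℤ) - p.1 1 = p.1 0 - p.2 1 := by linarith
        rw [e] at d2
        have e2 : (p.1 0 : ℤ) ^ k + (p.1 1 : ℤ) ^ k - ((p.2 0 : ℤ) ^ k + (p.2 1 : ℤ) ^ k) =
          ((p.1 0 : ℤ) ^ k - (p.2 1 : ℤ) ^ k) - ((p.2 0 : ℤ) ^ k - (p.1 1 : ℤ) ^ k) := by ring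
        rw [e2]
        exact dvd_sub d1 d2
      · apply mem_sdiv hv
        rw [← h6]
        have d1 := sub_dvd_pow_sub_pow (p.1 0 : ℤ) (p.2 0 : ℤ) k
        have d2 := sub_dvd_pow_sub_pow (p.2 1 : ℤ) (p.1 1 : ℤ) k
        have e : (p.2 1 : ℤ) - p.1 1 = p.1 0 - p.2 0 := by linarith
        rw [e] at d2
        have e2 : (p.1 0 : ℤ) ^ k + (p.1 1 : ℤ) ^ k - ((p.2 0 : ℤ) ^ k + (p.2 1 : ℤ) ^ k) =
          ((p.1 0 : ℤ) ^ k - (p.2 0 : ℤ) ^ k) - ((p.2 1 : ℤ) ^ k - (p.1 1 : ℤ) ^ k) := by ring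
        rw [e2]
        exact dvd_sub d1 d2
    · intro p hp q hq hpq
      rw [Finset.mem_coe, Finset.mem_filter] at hp hq
      obtain ⟨h1, h2, h3, h4, h5⟩ := mem_PP hQ hp.1
      obtain ⟨g1, g2, g3, g4, g5⟩ := mem_PP hQ hq.1
      simp only [Prod.mk.injEq] at hpq
      obtain ⟨⟨e1, e2⟩, e3⟩ := hpq
      apply Prod.ext
      · funext i
        fin_cases i
        · show p.1 0 = q.1 0
          omega
        · exact e3
      · funext i
        fin_cases i
        · show p.2 0 = q.2 0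
          omega
        · show p.2 1 = q.2 1
          omega
  refine h.trans ?_
  rw [Finset.card_product, Finset.card_product, Nat.card_Icc, Nat.add_sub_cancel]
  apply Nat.mul_le_mul_right
  have := card_sdiv v.natAbs
  nlinarith [Nat.zero_le (sdiv v.natAbs).card]

/-- Number of solutions for the mixed eighth moment. -/
theorem count_four (k : ℕ) (hk : 2 ≤ k) (δ : ℝ) (hδ : 0 < δ) :
    ∃ C : ℝ, 0 ≤ C ∧ ∀ N : ℕ, 1 ≤ N → ∀ R Q : ℕ, 4 * N ^ k ≤ R → 2 * N ≤ Q →
      ((((PP N Q ×ˢ PP N Q).filter (fun p => (R : ℤ) ∣ (ps k p.1.1 - ps k p.1.2) -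
        (ps k p.2.1 - ps k p.2.2))).card : ℕ) : ℝ) ≤ C * (N : ℝ) ^ (4 + δ) := by
  classical
  have hk0 : (0 : ℝ) < k := by exact_mod_cast (by omega : 0 < k)
  obtain ⟨C, hC1, hC⟩ := exists_card_divisors_le (δ / (2 * k)) (by positivity)
  refine ⟨4 + 4 * C ^ 2 * 2 ^ δ, by positivity, ?_⟩
  intro N hN R Q hR hQ
  have hN1 : (1 : ℝ) ≤ N := by exact_mod_cast hN
  set A : (Fin 2 → ℕ) × (Fin 2 → ℕ) → ℤ := fun p => ps k p.1 - ps k p.2 with hA
  have hAbd : ∀ p ∈ PP N Q, |A p| ≤ 2 * ((N : ℤ) ^ k - 1) := by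
    intro p hp
    unfold PP at hp
    rw [Finset.mem_filter, Finset.mem_product] at hp
    have h1 := ps_bounds (k := k) hp.1.1
    have h2 := ps_bounds (k := k) hp.1.2
    push_cast at h1 h2
    rw [hA, abs_le]
    constructor <;> simp only <;> linarith [h1.1, h1.2, h2.1, h2.2]
  set B : ℝ := C ^ 2 * (2 ^ δ * (N : ℝ) ^ δ) with hB
  have hB0 : 0 ≤ B := by positivity
  set S := (PP N Q ×ˢ PP N Q).filter (fun p => (R : ℤ) ∣ (ps k p.1.1 - ps k p.1.2) -
        (ps k p.2.1 - ps k p.2.2)) with hS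
  have hSeq : ∀ p ∈ S, p.1 ∈ PP N Q ∧ p.2 ∈ PP N Q ∧ A p.2 = A p.1 := by
    intro p hp
    rw [hS, Finset.mem_filter, Finset.mem_product] at hp
    obtain ⟨⟨h1, h2⟩, h3⟩ := hp
    refine ⟨h1, h2, ?_⟩
    have b1 := hAbd _ h1
    have b2 := hAbd _ h2
    have h4 : |(A p.1) - (A p.2)| < R := by
      have hR' : 4 * (N : ℤ) ^ k ≤ R := by exact_mod_cast hR
      rw [abs_le] at b1 b2
      rw [abs_lt]
      constructor <;> linarith [b1.1, b1.2, b2.1, b2.2]
    have := Int.eq_zero_of_abs_lt_dvd h3 h4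
    simp only [hA] at this ⊢
    linarith
  set Z := (PP N Q).filter (fun p => ps k p.1 - ps k p.2 = 0) with hZ
  have hcover : S ⊆ (Z ×ˢ Z) ∪ S.filter (fun p => A p.1 ≠ 0) := by
    intro p hp
    obtain ⟨h1, h2, h3⟩ := hSeq p hp
    rw [Finset.mem_union]
    by_cases h0 : A p.1 = 0
    · left
      rw [Finset.mem_product, hZ, Finset.mem_filter, Finset.mem_filter]
      exact ⟨⟨h1, h0⟩, ⟨h2, by rw [← h0, ← h3]⟩⟩
    · right
      rw [Finset.mem_filter]
      exact ⟨hp, h0⟩
  have hZc : (Z ×ˢ Z).card ≤ 4 * N ^ 4 := by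
    rw [Finset.card_product]
    have := card_zero (k := k) hk hQ
    calc Z.card * Z.card ≤ (2 * N ^ 2) * (2 * N ^ 2) := Nat.mul_le_mul this this
      _ = 4 * N ^ 4 := by ring
  have hSc : (S.filter (fun p => A p.1 ≠ 0)).card ≤ (4 * ⌊B⌋₊ * N) * (PP N Q).card := by
    apply Finset.card_le_mul_card_image_of_maps_to (f := fun p => p.1)
    · intro p hp
      rw [Finset.mem_filter] at hp
      exact (hSeq p hp.1).1
    · intro x hx
      by_cases hx0 : A x = 0
      · have : (S.filter (fun p => A p.1 ≠ 0)).filter (fun a => a.1 = x) = ∅ := by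
          rw [Finset.filter_eq_empty_iff]
          intro p hp hpx
          rw [Finset.mem_filter] at hp
          rw [hpx] at hp
          exact hp.2 hx0
        rw [this]
        simp
      · have hf : ((S.filter (fun p => A p.1 ≠ 0)).filter (fun a => a.1 = x)).card ≤
            ((PP N Q).filter (fun p => ps k p.1 - ps k p.2 = A x)).card := by
          apply Finset.card_le_card_of_injOn (fun p => p.2)
          · intro p hp
            rw [Finset.mem_coe, Finset.mem_filter, Finset.mem_filter] at hp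
            obtain ⟨⟨hp1, -⟩, hpx⟩ := hp
            obtain ⟨h1, h2, h3⟩ := hSeq p hp1
            rw [Finset.mem_coe, Finset.mem_filter]
            refine ⟨h2, ?_⟩
            rw [← hpx, ← h3]
          · intro p hp q hq hpq
            rw [Finset.mem_coe, Finset.mem_filter] at hp hq
            exact Prod.ext (hp.2.trans hq.2.symm) hpq
        refine (hf.trans (card_fibre hQ (A x) hx0)).trans ?_
        apply Nat.mul_le_mul_right
        apply Nat.mul_le_mul_left
        apply Nat.le_floor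
        have hV : ((A x).natAbs : ℝ) ≤ (2 * (N : ℝ)) ^ k := by
          have h1 := hAbd x hx
          have h2 : (((A x).natAbs : ℕ) : ℤ) ≤ (2 * (N : ℤ)) ^ k := by
            rw [Int.natCast_natAbs, mul_pow]
            have h3 : (2 : ℤ) ≤ 2 ^ k := by
              calc (2 : ℤ) = 2 ^ 1 := by norm_num
                _ ≤ 2 ^ k := pow_le_pow_right₀ (by norm_num) (by omega)
            have h4 : (0 : ℤ) ≤ (N : ℤ) ^ k := by positivity
            nlinarith
          exact_mod_cast h2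
        have hd : (((A x).natAbs.divisors.card : ℕ) : ℝ) ≤
            C * ((2 * (N : ℝ)) ^ k) ^ (δ / (2 * k)) := by
          refine (hC _ (Int.natAbs_ne_zero.2 hx0)).trans ?_
          apply mul_le_mul_of_nonneg_left _ (by linarith)
          exact Real.rpow_le_rpow (by positivity) hV (by positivity)
        push_cast
        calc ((A x).natAbs.divisors.card : ℝ) ^ 2
            ≤ (C * ((2 * (N : ℝ)) ^ k) ^ (δ / (2 * k))) ^ 2 :=
              pow_le_pow_left₀ (by positivity) hd 2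
          _ = B := by
            have e3 : ((2 * (N : ℝ)) ^ k) ^ (δ / (2 * k)) * ((2 * (N : ℝ)) ^ k) ^ (δ / (2 * k))
                = 2 ^ δ * (N : ℝ) ^ δ := by
              rw [← Real.rpow_add (by positivity), ← Real.rpow_natCast,
                ← Real.rpow_mul (by positivity), Real.mul_rpow (by norm_num) (by positivity)]
              have e4 : (k : ℝ) * (δ / (2 * k) + δ / (2 * k)) = δ := by
                field_simp
                ring
              rw [e4]
            rw [hB, ← e3]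
            ring
  have hPP := card_PP (N := N) (Q := Q) hQ
  have htot : S.card ≤ 4 * N ^ 4 + (4 * ⌊B⌋₊ * N) * N ^ 3 := by
    calc S.card ≤ ((Z ×ˢ Z) ∪ S.filter (fun p => A p.1 ≠ 0)).card := Finset.card_le_card hcover
      _ ≤ (Z ×ˢ Z).card + (S.filter (fun p => A p.1 ≠ 0)).card := Finset.card_union_le _ _
      _ ≤ 4 * N ^ 4 + (4 * ⌊B⌋₊ * N) * (PP N Q).card := Nat.add_le_add hZc hSc
      _ ≤ 4 * N ^ 4 + (4 * ⌊B⌋₊ * N) * N ^ 3 := by
        apply Nat.add_le_add_left
        exact Nat.mul_le_mul_left _ hPP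
  have hN4 : (N : ℝ) ^ (4 + δ) = (N : ℝ) ^ 4 * (N : ℝ) ^ δ := by
    rw [Real.rpow_add (by positivity)]
    congr 1
    rw [← Real.rpow_natCast]
    norm_num
  have hNδ : 1 ≤ (N : ℝ) ^ δ := Real.one_le_rpow hN1 hδ.le
  calc ((S.card : ℕ) : ℝ) ≤ ((4 * N ^ 4 + (4 * ⌊B⌋₊ * N) * N ^ 3 : ℕ) : ℝ) := by
        exact_mod_cast htot
    _ ≤ 4 * (N : ℝ) ^ 4 + 4 * B * N * (N : ℝ) ^ 3 := by
        push_cast
        have := Nat.floor_le hB0
        gcongr
    _ = 4 * (N : ℝ) ^ 4 + 4 * C ^ 2 * 2 ^ δ * ((N : ℝ) ^ 4 * (N : ℝ) ^ δ) := by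
        rw [hB]; ring
    _ ≤ (4 + 4 * C ^ 2 * 2 ^ δ) * (N : ℝ) ^ (4 + δ) := by
        rw [hN4]
        have h5 : 4 * (N : ℝ) ^ 4 ≤ 4 * ((N : ℝ) ^ 4 * (N : ℝ) ^ δ) := by
          have : (N : ℝ) ^ 4 * 1 ≤ (N : ℝ) ^ 4 * (N : ℝ) ^ δ :=
            mul_le_mul_of_nonneg_left hNδ (by positivity)
          linarith
        linarith

end Pool.Agent.Helper69_Weyl
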